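import Pool.Agent.H295R2.MK.Defs

set_option autoImplicit false

/-!
R3: the correlation `∫ ζ^j V conj(C)` on a Gaussian window (statement `H295MK.WinN`).
-/

namespace Pool.Agent.H89R2.MKR3

open Finset Filter Topology MeasureTheory Complex
open Pool.Agent.H306R2 hiding fr
open H295MK

noncomputable section

lemma fr_conj (a b : ℕ) (t : ℝ) : (starRingEnd ℂ) (fr a b t) = fr b a t := by
  unfold H295MK.fr
  rw [← Complex.exp_conj, map_mul, Complex.conj_ofReal, Complex.conj_I]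
  congr 1
  push_cast
  ring

lemma fr_mul (n h l : ℕ) (hn : 1 ≤ n) (hh : 1 ≤ h) (t : ℝ) :
    fr 1 n t * fr l h t = fr l (n * h) t := by
  unfold H295MK.fr
  rw [← Complex.exp_add]
  congr 1
  have h1 : (n : ℝ) ≠ 0 := by exact_mod_cast (by omega : n ≠ 0)
  have h2 : (h : ℝ) ≠ 0 := by exact_mod_cast (by omega : h ≠ 0)
  rw [Nat.cast_mul, Real.log_mul h1 h2, Nat.cast_one, Real.log_one]
  push_cast
  ring

lemma fr_cont (a b : ℕ) : Continuous (fr a b) := by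
  unfold H295MK.fr
  fun_prop

/-- coefficients of `V` -/
def vn (j n : ℕ) : ℝ := dv j n / Real.sqrt n

lemma mt_coprime (j h l n : ℕ) (hc : Nat.Coprime h l) (hn : ¬ l ∣ n) : mt j l (n * h) = 0 := by
  unfold H295MK.mt
  rw [if_neg]
  intro hcon
  exact hn (hc.symm.dvd_of_dvd_mul_right hcon)

lemma mt_mul (j h l r : ℕ) (hh : 1 ≤ h) (hl : 1 ≤ l) (hr : 1 ≤ r) :
    vn j (l * r) * mt j l ((l * r) * h) =
      dv j (h * r) * dv j (l * r) / (r : ℝ) / Real.sqrt ((h : ℝ) * l) := by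
  have h0 : (0 : ℝ) < h := by exact_mod_cast hh
  have l0 : (0 : ℝ) < l := by exact_mod_cast hl
  have r0 : (0 : ℝ) < r := by exact_mod_cast hr
  unfold vn H295MK.mt
  rw [if_pos (by rw [mul_assoc]; exact dvd_mul_right l (r * h)), mul_assoc l r h,
    Nat.mul_div_cancel_left _ (by omega), mul_comm r h]
  have e1 : (l : ℝ) / ((l * (h * r) : ℕ) : ℝ) = 1 / (h * r) := by
    push_cast
    field_simp
  rw [e1, Real.sqrt_div zero_le_one, Real.sqrt_one]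
  have e2 : (r : ℝ) * Real.sqrt ((h : ℝ) * l) = Real.sqrt ((l * r : ℕ) : ℝ) * Real.sqrt ((h : ℝ) * r) := by
    rw [← Real.sqrt_mul (by positivity)]
    have : ((l * r : ℕ) : ℝ) * ((h : ℝ) * r) = r ^ 2 * ((h : ℝ) * l) := by
      push_cast
      ring
    rw [this, Real.sqrt_mul (by positivity : (0 : ℝ) ≤ (r : ℝ) ^ 2), Real.sqrt_sq r0.le]
  rw [div_div, e2, mul_one_div, div_mul_div_comm, mul_comm (dv j (l * r))]

/-- the diagonal sum over `n` -/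
lemma inner_sum (j : ℕ) (X : ℝ) (h l : ℕ) (hh : 1 ≤ h) (hl : 1 ≤ l) (hc : Nat.Coprime h l) :
    ∑ n ∈ Icc 1 ⌊X⌋₊, vn j n * mt j l (n * h) = cc j X (h, l) := by
  classical
  have e1 : ∑ n ∈ Icc 1 ⌊X⌋₊, vn j n * mt j l (n * h) =
      ∑ n ∈ (Icc 1 ⌊X⌋₊).filter (fun n => l ∣ n), vn j n * mt j l (n * h) := by
    rw [sum_filter]
    refine sum_congr rfl fun n _ => ?_
    split_ifs with hln
    · rfl
    · rw [mt_coprime j h l n hc hln, mul_zero]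
  rw [e1]
  unfold cc
  rw [← sum_filter, sum_div]
  symm
  refine sum_nbij' (fun r => l * r) (fun n => n / l) ?_ ?_ ?_ ?_ ?_
  · intro r hr
    obtain ⟨hr1, hr2⟩ := mem_filter.1 hr
    rw [mem_Icc] at hr1
    rw [mem_filter, mem_Icc]
    refine ⟨⟨Nat.one_le_iff_ne_zero.2 (Nat.mul_ne_zero (by omega) (by omega)), ?_⟩, dvd_mul_right _ _⟩
    exact Nat.le_floor hr2
  · intro n hn
    obtain ⟨hn1, hn2⟩ := mem_filter.1 hn
    rw [mem_Icc] at hn1
    obtain ⟨r, rfl⟩ := hn2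
    have hr : 1 ≤ r := by
      rcases Nat.eq_zero_or_pos r with h0 | h0
      · rw [h0, mul_zero] at hn1
        omega
      · exact h0
    rw [Nat.mul_div_cancel_left _ (by omega), mem_filter, mem_Icc]
    refine ⟨⟨hr, (Nat.le_mul_of_pos_left r (by omega)).trans hn1.2⟩, ?_⟩
    have hX : 0 ≤ X := by
      by_contra hcon
      rw [Nat.floor_of_nonpos (not_le.1 hcon).le] at hn1
      omega
    exact (Nat.le_floor_iff hX).1 hn1.2
  · intro r _
    exact Nat.mul_div_cancel_left _ (by omega)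
  · intro n hn
    exact Nat.mul_div_cancel' (mem_filter.1 hn).2
  · intro r hr
    obtain ⟨hr1, _⟩ := mem_filter.1 hr
    rw [mem_Icc] at hr1
    exact (mt_mul j h l r hh hl hr1.1).symm

lemma mem_SP {X : ℝ} {b : ℕ × ℕ} (hb : b ∈ SP X) :
    1 ≤ b.1 ∧ b.1 ≤ ⌊X⌋₊ ∧ 1 ≤ b.2 ∧ b.2 ≤ ⌊X⌋₊ ∧ Nat.Coprime b.1 b.2 := by
  unfold SP at hb
  rw [mem_filter, mem_product, mem_Icc, mem_Icc] at hb
  exact ⟨hb.1.1.1, hb.1.1.2, hb.1.2.1, hb.1.2.2, hb.2⟩

/-- `EE` as the main term -/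
lemma EE_main (j : ℕ) (X : ℝ) :
    ∑ b ∈ SP X, ∑ n ∈ Icc 1 ⌊X⌋₊, (vn j n * cc j X b) * mt j b.2 (n * b.1) = EE j X := by
  unfold EE
  refine sum_congr rfl fun b hb => ?_
  obtain ⟨h1, _, h3, _, h5⟩ := mem_SP hb
  rw [sq]
  conv_rhs => rw [← inner_sum j X b.1 b.2 h1 h3 h5]
  rw [sum_mul]
  refine sum_congr rfl fun n _ => ?_
  rw [inner_sum j X b.1 b.2 h1 h3 h5]
  ring

/-- the integral as a sum of twisted integrals -/
lemma integral_eq (j : ℕ) (η δ T τ X : ℝ) :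
    ∫ t in (τ - δ / 2 * T)..(τ + δ / 2 * T), (riemannZeta (cl t) ^ j * VV j X t) *
      (starRingEnd ℂ) (CC j X t) * (gw τ (Ht η T) t : ℂ) =
    ∑ b ∈ SP X, ∑ n ∈ Icc 1 ⌊X⌋₊, ((vn j n * cc j X b : ℝ) : ℂ) *
      win η δ T τ (fun t => riemannZeta (cl t) ^ j * fr b.2 (n * b.1) t) := by
  have hc : ∀ b : ℕ × ℕ, ∀ n : ℕ, Continuous (fun t : ℝ => ((vn j n * cc j X b : ℝ) : ℂ) *
      (riemannZeta (cl t) ^ j * fr b.2 (n * b.1) t * (gw τ (Ht η T) t : ℂ))) := by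
    intro b n
    refine continuous_const.mul (((Continuous.pow ?_ j).mul (fr_cont _ _)).mul
      (Complex.continuous_ofReal.comp (gw_continuous _ _)))
    exact zeta_line_continuous
  unfold win
  have e2 : ∑ b ∈ SP X, ∑ n ∈ Icc 1 ⌊X⌋₊, ((vn j n * cc j X b : ℝ) : ℂ) *
      ∫ t in (τ - δ / 2 * T)..(τ + δ / 2 * T), riemannZeta (cl t) ^ j * fr b.2 (n * b.1) t *
        (gw τ (Ht η T) t : ℂ) =
      ∫ t in (τ - δ / 2 * T)..(τ + δ / 2 * T), ∑ b ∈ SP X, ∑ n ∈ Icc 1 ⌊X⌋₊,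
        ((vn j n * cc j X b : ℝ) : ℂ) *
        (riemannZeta (cl t) ^ j * fr b.2 (n * b.1) t * (gw τ (Ht η T) t : ℂ)) := by
    rw [intervalIntegral.integral_finsetSum]
    · refine sum_congr rfl fun b _ => ?_
      rw [intervalIntegral.integral_finsetSum]
      · refine sum_congr rfl fun n _ => ?_
        rw [intervalIntegral.integral_const_mul]
      · intro n _
        exact (hc b n).intervalIntegrable _ _
    · intro b _
      exact (continuous_finsetSum _ fun n _ => hc b n).intervalIntegrable _ _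
  rw [e2]
  refine intervalIntegral.integral_congr fun t _ => ?_
  show (riemannZeta (cl t) ^ j * VV j X t) *
      (starRingEnd ℂ) (CC j X t) * (gw τ (Ht η T) t : ℂ) = _
  unfold VV CC
  rw [map_sum]
  have e3 : (riemannZeta (cl t) ^ j * ∑ n ∈ Icc 1 ⌊X⌋₊, ((dv j n / Real.sqrt n : ℝ) : ℂ) * fr 1 n t) *
      (∑ b ∈ SP X, (starRingEnd ℂ) ((cc j X b : ℂ) * fr b.1 b.2 t)) * (gw τ (Ht η T) t : ℂ) =
      (riemannZeta (cl t) ^ j * (gw τ (Ht η T) t : ℂ)) *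
        ((∑ b ∈ SP X, (starRingEnd ℂ) ((cc j X b : ℂ) * fr b.1 b.2 t)) *
        ∑ n ∈ Icc 1 ⌊X⌋₊, ((dv j n / Real.sqrt n : ℝ) : ℂ) * fr 1 n t) := by ring
  rw [e3, sum_mul_sum, mul_sum]
  refine sum_congr rfl fun b hb => ?_
  rw [mul_sum]
  refine sum_congr rfl fun n hn => ?_
  obtain ⟨h1, _, _, _, _⟩ := mem_SP hb
  rw [map_mul, Complex.conj_ofReal, fr_conj, ← fr_mul n b.1 b.2 (mem_Icc.1 hn).1 h1]
  unfold vn
  push_cast
  ring

lemma dv_le_pow (j n : ℕ) {T : ℝ} (hn : (n : ℝ) ≤ T) : dv j n ≤ T ^ j := by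
  have h := PB_dA (α := (j : ℝ)) (Nat.cast_nonneg j) (J := j) le_rfl n
  rw [dA_apply] at h
  exact (le_abs_self _).trans (h.trans (pow_le_pow_left₀ (Nat.cast_nonneg n) hn j))

lemma vn_abs_le (j n : ℕ) {T : ℝ} (_hT : 1 ≤ T) (h1 : 1 ≤ n) (hn : (n : ℝ) ≤ T) :
    |vn j n| ≤ T ^ j := by
  have h0 := dv_nonneg (α := (j : ℝ)) (Nat.cast_nonneg j) n
  unfold vn
  rw [abs_of_nonneg (by positivity)]
  have hs : 1 ≤ Real.sqrt n := Real.one_le_sqrt.2 (by exact_mod_cast h1)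
  exact (div_le_self h0 hs).trans (dv_le_pow j n hn)

lemma cc_abs_le (j : ℕ) (X : ℝ) {T : ℝ} (hT : 1 ≤ T) (hX : X * X ≤ T) (hX1 : 1 ≤ X) (b : ℕ × ℕ)
    (hb : b ∈ SP X) : |cc j X b| ≤ T * (T ^ j * T ^ j) := by
  obtain ⟨h1, h2, h3, h4, h5⟩ := mem_SP hb
  have hX0 : 0 ≤ X := by linarith
  have hXT : X ≤ T := by nlinarith
  have hfl : ((⌊X⌋₊ : ℕ) : ℝ) ≤ X := Nat.floor_le hX0
  have hterm : ∀ r ∈ Icc 1 ⌊X⌋₊,
      0 ≤ (if ((b.2 * r : ℕ) : ℝ) ≤ X then dv j (b.1 * r) * dv j (b.2 * r) / (r : ℝ) else 0) ∧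
      (if ((b.2 * r : ℕ) : ℝ) ≤ X then dv j (b.1 * r) * dv j (b.2 * r) / (r : ℝ) else 0) ≤
        T ^ j * T ^ j := by
    intro r hr
    rw [mem_Icc] at hr
    have d1 := dv_nonneg (α := (j : ℝ)) (Nat.cast_nonneg j) (b.1 * r)
    have d2 := dv_nonneg (α := (j : ℝ)) (Nat.cast_nonneg j) (b.2 * r)
    have hr1 : (1 : ℝ) ≤ r := by exact_mod_cast hr.1
    have hrX : (r : ℝ) ≤ X := le_trans (by exact_mod_cast hr.2) hfl
    have hb1X : (b.1 : ℝ) ≤ X := le_trans (by exact_mod_cast h2) hfl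
    have hb2X : (b.2 : ℝ) ≤ X := le_trans (by exact_mod_cast h4) hfl
    have p1 : ((b.1 * r : ℕ) : ℝ) ≤ T := by
      push_cast
      exact (mul_le_mul hb1X hrX (by positivity) hX0).trans hX
    have p2 : ((b.2 * r : ℕ) : ℝ) ≤ T := by
      push_cast
      exact (mul_le_mul hb2X hrX (by positivity) hX0).trans hX
    split_ifs
    · refine ⟨by positivity, ?_⟩
      exact (div_le_self (mul_nonneg d1 d2) hr1).trans
        (mul_le_mul (dv_le_pow j _ p1) (dv_le_pow j _ p2) d2 (by positivity))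
    · exact ⟨le_rfl, by positivity⟩
  unfold cc
  have hs0 : 0 ≤ ∑ r ∈ Icc 1 ⌊X⌋₊,
      (if ((b.2 * r : ℕ) : ℝ) ≤ X then dv j (b.1 * r) * dv j (b.2 * r) / (r : ℝ) else 0) :=
    sum_nonneg fun r hr => (hterm r hr).1
  rw [abs_of_nonneg (by positivity)]
  have hsq : 1 ≤ Real.sqrt ((b.1 : ℝ) * b.2) := by
    refine Real.one_le_sqrt.2 ?_
    have : 1 ≤ b.1 * b.2 := Nat.one_le_iff_ne_zero.2 (Nat.mul_ne_zero (by omega) (by omega))
    exact_mod_cast this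
  refine (div_le_self hs0 hsq).trans ?_
  refine (sum_le_card_nsmul _ _ (T ^ j * T ^ j) fun r hr => (hterm r hr).2).trans ?_
  rw [nsmul_eq_mul, Nat.card_Icc, Nat.add_sub_cancel]
  exact mul_le_mul_of_nonneg_right (hfl.trans hXT) (by positivity)

/-- R3 -/
theorem winN (h : TwZ) : WinN := by
  intro j η δ hj hη hη2 hδ hδ1
  filter_upwards [h j (3 * j + 4) η δ hη hη2 hδ hδ1, eventually_ge_atTop 1] with T hT hT1 τ hτ1 hτ2
  have hT0 : 0 < T := by linarith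
  set X : ℝ := Yt η T ^ (1 / 2 : ℝ) with hX
  have hY1 : 1 ≤ Yt η T := Real.one_le_rpow hT1 (by linarith)
  have hX1 : 1 ≤ X := Real.one_le_rpow hY1 (by norm_num)
  have hXX : X * X = Yt η T := by
    rw [hX, ← Real.rpow_add (by linarith)]
    norm_num
  have hYT : Yt η T ≤ T := by
    unfold Yt
    calc T ^ (1 - 2 * η) ≤ T ^ (1 : ℝ) := Real.rpow_le_rpow_of_exponent_le hT1 (by linarith)
      _ = T := Real.rpow_one T
  have hXT : X ≤ T := by nlinarith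
  have hX0 : 0 ≤ X := by linarith
  have hfl : ((⌊X⌋₊ : ℕ) : ℝ) ≤ X := Nat.floor_le hX0
  rw [integral_eq j η δ T τ X]
  set S : ℂ := ∑ b ∈ SP X, ∑ n ∈ Icc 1 ⌊X⌋₊, ((vn j n * cc j X b : ℝ) : ℂ) *
      win η δ T τ (fun t => riemannZeta (cl t) ^ j * fr b.2 (n * b.1) t) with hS
  have hE : ((EE j X : ℝ) : ℂ) = ∑ b ∈ SP X, ∑ n ∈ Icc 1 ⌊X⌋₊,
      ((vn j n * cc j X b : ℝ) : ℂ) * (mt j b.2 (n * b.1) : ℂ) := by
    rw [← EE_main j X]
    push_cast
    rfl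
  have hdiff : ‖S - ((EE j X : ℝ) : ℂ)‖ ≤ 1 := by
    rw [hE, hS, ← sum_sub_distrib]
    have hb1 : ∀ b ∈ SP X, ‖∑ n ∈ Icc 1 ⌊X⌋₊, ((vn j n * cc j X b : ℝ) : ℂ) *
        win η δ T τ (fun t => riemannZeta (cl t) ^ j * fr b.2 (n * b.1) t) -
        ∑ n ∈ Icc 1 ⌊X⌋₊, ((vn j n * cc j X b : ℝ) : ℂ) * (mt j b.2 (n * b.1) : ℂ)‖ ≤
        T * (T ^ j * (T * (T ^ j * T ^ j)) * (1 / T ^ (3 * j + 4))) := by
      intro b hb
      obtain ⟨h1, h2, h3, h4, h5⟩ := mem_SP hb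
      have hb1X : (b.1 : ℝ) ≤ X := le_trans (by exact_mod_cast h2) hfl
      have hb2X : (b.2 : ℝ) ≤ X := le_trans (by exact_mod_cast h4) hfl
      rw [← sum_sub_distrib]
      refine (norm_sum_le _ _).trans ?_
      refine (sum_le_card_nsmul _ _ (T ^ j * (T * (T ^ j * T ^ j)) * (1 / T ^ (3 * j + 4)))
        fun n hn => ?_).trans ?_
      · rw [mem_Icc] at hn
        have hnX : (n : ℝ) ≤ X := le_trans (by exact_mod_cast hn.2) hfl
        rw [← mul_sub, norm_mul, Complex.norm_real, Real.norm_eq_abs, abs_mul]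
        refine mul_le_mul (mul_le_mul (vn_abs_le j n hT1 hn.1 (hnX.trans hXT))
          (cc_abs_le j X hT1 (hXX.le.trans hYT) hX1 b hb) (abs_nonneg _) (by positivity)) ?_
          (norm_nonneg _) (by positivity)
        refine hT τ hτ1 hτ2 b.2 (n * b.1) h3 (hb2X.trans hXT)
          (Nat.one_le_iff_ne_zero.2 (Nat.mul_ne_zero (by omega) (by omega))) ?_
        rw [← hXX]
        push_cast
        exact mul_le_mul hnX hb1X (by positivity) hX0
      · rw [nsmul_eq_mul, Nat.card_Icc, Nat.add_sub_cancel]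
        exact mul_le_mul_of_nonneg_right (hfl.trans hXT) (by positivity)
    refine (norm_sum_le _ _).trans ((sum_le_card_nsmul _ _ _ hb1).trans ?_)
    rw [nsmul_eq_mul]
    have hcard : ((SP X).card : ℝ) ≤ T * T := by
      have h1 : (SP X).card ≤ ⌊X⌋₊ * ⌊X⌋₊ := by
        unfold SP
        refine (card_filter_le _ _).trans ?_
        rw [card_product, Nat.card_Icc, Nat.add_sub_cancel]
      calc ((SP X).card : ℝ) ≤ ((⌊X⌋₊ * ⌊X⌋₊ : ℕ) : ℝ) := by exact_mod_cast h1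
        _ = (⌊X⌋₊ : ℝ) * ⌊X⌋₊ := by push_cast; rfl
        _ ≤ T * T := mul_le_mul (hfl.trans hXT) (hfl.trans hXT) (by positivity) hT0.le
    calc _ ≤ T * T * (T * (T ^ j * (T * (T ^ j * T ^ j)) * (1 / T ^ (3 * j + 4)))) :=
          mul_le_mul_of_nonneg_right hcard (by positivity)
      _ = T ^ (3 * j + 4) * (1 / T ^ (3 * j + 4)) := by ring
      _ = 1 := mul_one_div_cancel (by positivity)
      _ ≤ 1 := le_rfl
  have h1 : EE j X ≤ ‖((EE j X : ℝ) : ℂ)‖ := by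
    rw [Complex.norm_real]
    exact le_abs_self _
  have h2 : ‖((EE j X : ℝ) : ℂ)‖ ≤ ‖S‖ + ‖S - ((EE j X : ℝ) : ℂ)‖ := by
    have := norm_sub_le S (S - ((EE j X : ℝ) : ℂ))
    rwa [sub_sub_cancel] at this
  linarith

end

end Pool.Agent.H89R2.MKR3
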