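import Pool.Agent.H923R2.FP.Stubs

/-! Grouping of free families. -/

set_option autoImplicit false

open scoped ComplexConjugate

noncomputable section

namespace Pool.Agent.H923R2.FP.T_GRP

open Pool.Agent.H923R2.FP

variable {A K : Type} [CStarAlgebra A]

/-- alternating centred words -/
def Gw (τ : A →ₗ[ℂ] ℂ) (S : K → StarSubalgebra ℂ A) (w : List (K × A)) : Prop :=
  (∀ z ∈ w, z.2 ∈ S z.1 ∧ τ z.2 = 0) ∧ w.IsChain (fun x y => x.1 ≠ y.1)

/-- products of nonempty words with indices of the type `b` -/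
def U (τ : A →ₗ[ℂ] ℂ) (S : K → StarSubalgebra ℂ A) (k0 : K) (b : Bool) : Set A :=
  {p | ∃ w : List (K × A), w ≠ [] ∧ Gw τ S w ∧ (∀ z ∈ w, (z.1 = k0 ↔ b = true)) ∧
    p = (w.map Prod.snd).prod}

/-- products of nonempty words whose first index has the type `b` -/
def G (τ : A →ₗ[ℂ] ℂ) (S : K → StarSubalgebra ℂ A) (k0 : K) (b : Bool) : Set A :=
  {p | ∃ w : List (K × A), w ≠ [] ∧ Gw τ S w ∧ (∀ z ∈ w.head?, (z.1 = k0 ↔ b = true)) ∧
    p = (w.map Prod.snd).prod}

/-- products of words without the index `k0` -/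
def V0 (τ : A →ₗ[ℂ] ℂ) (S : K → StarSubalgebra ℂ A) (k0 : K) : Set A :=
  {p | ∃ w : List (K × A), Gw τ S w ∧ (∀ z ∈ w, z.1 ≠ k0) ∧ p = (w.map Prod.snd).prod}

/-- their span -/
def V (τ : A →ₗ[ℂ] ℂ) (S : K → StarSubalgebra ℂ A) (k0 : K) : Submodule ℂ A :=
  Submodule.span ℂ (V0 τ S k0)

variable {τ : A →ₗ[ℂ] ℂ} {S : K → StarSubalgebra ℂ A} {k0 : K}

theorem U_sub_G (b : Bool) : U τ S k0 b ⊆ G τ S k0 b := by
  rintro p ⟨w, h1, h2, h3, h4⟩
  exact ⟨w, h1, h2, fun z hz => h3 z (List.mem_of_mem_head? hz), h4⟩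

theorem U_mul_G {b : Bool} {p q : A} (hp : p ∈ U τ S k0 b) (hq : q ∈ G τ S k0 (!b)) :
    p * q ∈ G τ S k0 b := by
  obtain ⟨w, h1, h2, h3, rfl⟩ := hp
  obtain ⟨v, g1, g2, g3, rfl⟩ := hq
  refine ⟨w ++ v, by simp [h1], ⟨?_, ?_⟩, ?_, ?_⟩
  · intro z hz
    rcases List.mem_append.1 hz with hz | hz
    · exact h2.1 z hz
    · exact g2.1 z hz
  · rw [List.isChain_append]
    refine ⟨h2.2, g2.2, fun x hx y hy hxy => ?_⟩
    have e1 := h3 x (List.mem_of_mem_getLast? hx)
    have e2 := g3 y hy
    rw [hxy] at e1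
    rw [e1] at e2
    cases b <;> simp at e2
  · intro z hz
    cases w with
    | nil => exact absurd rfl h1
    | cons x w =>
      rw [List.cons_append, List.head?_cons] at hz
      obtain rfl : x = z := by simpa using hz
      exact h3 x (by simp)
  · rw [List.map_append, List.prod_append]

theorem span_mul {b : Bool} {x y : A} (hx : x ∈ Submodule.span ℂ (U τ S k0 b))
    (hy : y ∈ Submodule.span ℂ (G τ S k0 (!b))) : x * y ∈ Submodule.span ℂ (G τ S k0 b) := by
  induction hx using Submodule.span_induction with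
  | mem p hp =>
    induction hy using Submodule.span_induction with
    | mem q hq => exact Submodule.subset_span (U_mul_G hp hq)
    | zero => rw [mul_zero]; exact Submodule.zero_mem _
    | add q q' _ _ h h' => rw [mul_add]; exact Submodule.add_mem _ h h'
    | smul c q _ h => rw [mul_smul_comm]; exact Submodule.smul_mem _ _ h
  | zero => rw [zero_mul]; exact Submodule.zero_mem _
  | add q q' _ _ h h' => rw [add_mul]; exact Submodule.add_mem _ h h'
  | smul c q _ h => rw [smul_mul_assoc]; exact Submodule.smul_mem _ _ h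

theorem one_mem_V : (1 : A) ∈ V τ S k0 :=
  Submodule.subset_span ⟨[], ⟨by simp, List.isChain_nil⟩, by simp, by simp⟩

theorem centred_mem (hτ : FTS τ) {k : K} {x : A} (hx : x ∈ S k) :
    x - τ x • (1 : A) ∈ S k ∧ τ (x - τ x • (1 : A)) = 0 := by
  refine ⟨sub_mem hx (SMulMemClass.smul_mem _ (one_mem _)), ?_⟩
  rw [map_sub, map_smul, hτ.one, smul_eq_mul, mul_one, sub_self]

theorem word_mul_mem (hτ : FTS τ) (w : List (K × A)) :
    ∀ (_ : Gw τ S w) (_ : ∀ z ∈ w, z.1 ≠ k0) (k : K) (_ : k ≠ k0) (x : A) (_ : x ∈ S k),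
      (w.map Prod.snd).prod * x ∈ V τ S k0 := by
  induction w using List.reverseRecOn with
  | nil =>
    intro _ _ k hk x hx
    obtain ⟨h1, h2⟩ := centred_mem hτ hx
    have e : (([] : List (K × A)).map Prod.snd).prod * x = τ x • (1 : A) + (x - τ x • (1 : A)) := by
      simp
    rw [e]
    refine Submodule.add_mem _ (Submodule.smul_mem _ _ one_mem_V) (Submodule.subset_span ?_)
    refine ⟨[(k, x - τ x • (1 : A))], ⟨?_, List.isChain_singleton _⟩, by simpa using hk, by simp⟩
    intro z hz
    rw [List.mem_singleton] at hz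
    subst hz
    exact ⟨h1, h2⟩
  | append_singleton w z ih =>
    intro hw hk0 k hk x hx
    obtain ⟨j, y⟩ := z
    have hy := hw.1 (j, y) (by simp)
    have hc := List.isChain_append.1 hw.2
    by_cases hjk : j = k
    · subst hjk
      have e : ((w ++ [(j, y)]).map Prod.snd).prod * x = (w.map Prod.snd).prod * (y * x) := by
        simp [mul_assoc]
      rw [e]
      exact ih ⟨fun z hz => hw.1 z (List.mem_append_left _ hz), hc.1⟩
        (fun z hz => hk0 z (List.mem_append_left _ hz)) j hk (y * x) (mul_mem hy.1 hx)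
    · obtain ⟨h1, h2⟩ := centred_mem hτ hx
      have e : ((w ++ [(j, y)]).map Prod.snd).prod * x =
          τ x • ((w ++ [(j, y)]).map Prod.snd).prod +
          ((w ++ [(j, y)]).map Prod.snd).prod * (x - τ x • (1 : A)) := by
        rw [mul_sub, mul_smul_comm, mul_one, add_sub_cancel]
      rw [e]
      refine Submodule.add_mem _ (Submodule.smul_mem _ _ (Submodule.subset_span ⟨_, hw, hk0, rfl⟩))
        (Submodule.subset_span ?_)
      refine ⟨(w ++ [(j, y)]) ++ [(k, x - τ x • (1 : A))], ⟨?_, ?_⟩, ?_, ?_⟩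
      · intro z hz
        rcases List.mem_append.1 hz with hz | hz
        · exact hw.1 z hz
        · rw [List.mem_singleton] at hz
          subst hz
          exact ⟨h1, h2⟩
      · rw [List.isChain_append]
        refine ⟨hw.2, List.isChain_singleton _, ?_⟩
        intro a ha b hb
        rw [List.getLast?_append_of_ne_nil _ (by simp)] at ha
        simp only [List.getLast?_singleton, Option.mem_def, Option.some.injEq,
          List.head?_cons] at ha hb
        subst ha
        subst hb
        exact hjk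
      · intro z hz
        rcases List.mem_append.1 hz with hz | hz
        · exact hk0 z hz
        · rw [List.mem_singleton] at hz
          subst hz
          exact hk
      · rw [List.map_append (l₁ := w ++ [(j, y)]), List.prod_append]
        simp

theorem prod_star (w : List (K × A)) :
    ((w.reverse.map fun z => (z.1, star z.2)).map Prod.snd).prod = star (w.map Prod.snd).prod := by
  induction w with
  | nil => simp
  | cons z w ih =>
    rw [List.reverse_cons, List.map_append, List.map_append, List.prod_append, ih]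
    simp

theorem star_mem_V (hτ : FTS τ) {v : A} (hv : v ∈ V τ S k0) : star v ∈ V τ S k0 := by
  induction hv using Submodule.span_induction with
  | mem p hp =>
    obtain ⟨w, h1, h2, rfl⟩ := hp
    rw [← prod_star]
    refine Submodule.subset_span ⟨_, ⟨?_, ?_⟩, ?_, rfl⟩
    · intro z hz
      obtain ⟨y, hy, rfl⟩ := List.mem_map.1 hz
      have := h1.1 y (List.mem_reverse.1 hy)
      refine ⟨star_mem this.1, ?_⟩
      rw [hτ.str, this.2, map_zero]
    · rw [List.isChain_map, List.isChain_reverse]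
      exact h1.2.imp fun a b hab => hab.symm
    · intro z hz
      obtain ⟨y, hy, rfl⟩ := List.mem_map.1 hz
      exact h2 y (List.mem_reverse.1 hy)
  | zero => rw [star_zero]; exact Submodule.zero_mem _
  | add q q' _ _ h h' => rw [star_add]; exact Submodule.add_mem _ h h'
  | smul c q _ h => rw [star_smul]; exact Submodule.smul_mem _ _ h

theorem V_mul_mem (hτ : FTS τ) {k : K} (hk : k ≠ k0) {x : A} (hx : x ∈ S k) {v : A}
    (hv : v ∈ V τ S k0) : v * x ∈ V τ S k0 := by
  induction hv using Submodule.span_induction with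
  | mem p hp =>
    obtain ⟨w, h1, h2, rfl⟩ := hp
    exact word_mul_mem hτ w h1 h2 k hk x hx
  | zero => rw [zero_mul]; exact Submodule.zero_mem _
  | add q q' _ _ h h' => rw [add_mul]; exact Submodule.add_mem _ h h'
  | smul c q _ h => rw [smul_mul_assoc]; exact Submodule.smul_mem _ _ h

/-- the multipliers of `V` -/
def T (hτ : FTS τ) (S : K → StarSubalgebra ℂ A) (k0 : K) : StarSubalgebra ℂ A where
  carrier := {x | (∀ v ∈ V τ S k0, v * x ∈ V τ S k0) ∧ ∀ v ∈ V τ S k0, x * v ∈ V τ S k0}
  mul_mem' := by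
    rintro x y ⟨h1, h2⟩ ⟨h3, h4⟩
    refine ⟨fun v hv => ?_, fun v hv => ?_⟩
    · rw [← mul_assoc]; exact h3 _ (h1 v hv)
    · rw [mul_assoc]; exact h2 _ (h4 v hv)
  add_mem' := by
    rintro x y ⟨h1, h2⟩ ⟨h3, h4⟩
    refine ⟨fun v hv => ?_, fun v hv => ?_⟩
    · rw [mul_add]; exact Submodule.add_mem _ (h1 v hv) (h3 v hv)
    · rw [add_mul]; exact Submodule.add_mem _ (h2 v hv) (h4 v hv)
  algebraMap_mem' := by
    intro c
    refine ⟨fun v hv => ?_, fun v hv => ?_⟩
    · rw [← Algebra.commutes, ← Algebra.smul_def]; exact Submodule.smul_mem _ _ hv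
    · rw [← Algebra.smul_def]; exact Submodule.smul_mem _ _ hv
  star_mem' := by
    rintro x ⟨h1, h2⟩
    refine ⟨fun v hv => ?_, fun v hv => ?_⟩
    · have := star_mem_V hτ (h2 _ (star_mem_V hτ hv))
      rwa [star_mul, star_star] at this
    · have := star_mem_V hτ (h1 _ (star_mem_V hτ hv))
      rwa [star_mul, star_star] at this

theorem le_T (hτ : FTS τ) {k : K} (hk : k ≠ k0) : S k ≤ T hτ S k0 := by
  intro x hx
  refine ⟨fun v hv => V_mul_mem hτ hk hx hv, fun v hv => ?_⟩
  have := star_mem_V hτ (V_mul_mem hτ hk (star_mem hx) (star_mem_V hτ hv))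
  rwa [star_mul, star_star, star_star] at this

theorem sup_sub_V (hτ : FTS τ) {x : A} (hx : x ∈ ⨆ k : {k // k ≠ k0}, S k.1) : x ∈ V τ S k0 := by
  have h1 : (⨆ k : {k // k ≠ k0}, S k.1) ≤ T hτ S k0 := iSup_le fun k => le_T hτ k.2
  have h2 := (h1 hx).1 1 one_mem_V
  rwa [one_mul] at h2

theorem V_centred (hτ : FTS τ) (hS : FreeFam τ S) {v : A} (hv : v ∈ V τ S k0) :
    v - τ v • (1 : A) ∈ Submodule.span ℂ (U τ S k0 false) := by
  induction hv using Submodule.span_induction with
  | mem p hp =>
    obtain ⟨w, h1, h2, rfl⟩ := hp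
    by_cases hw : w = []
    · subst hw
      simp [hτ.one]
    · rw [hS w hw h1.1 h1.2, zero_smul, sub_zero]
      exact Submodule.subset_span ⟨w, hw, h1, fun z hz => by simpa using h2 z hz, rfl⟩
  | zero => simp
  | add q q' _ _ h h' =>
    have e : q + q' - τ (q + q') • (1 : A) = (q - τ q • (1 : A)) + (q' - τ q' • (1 : A)) := by
      rw [map_add, add_smul]; abel
    rw [e]
    exact Submodule.add_mem _ h h'
  | smul c q _ h =>
    have e : c • q - τ (c • q) • (1 : A) = c • (q - τ q • (1 : A)) := by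
      rw [map_smul, smul_sub, smul_smul, smul_eq_mul]
    rw [e]
    exact Submodule.smul_mem _ _ h

theorem letter (hτ : FTS τ) (hS : FreeFam τ S) (b : Bool) {x : A}
    (hx : x ∈ (fun b : Bool => if b then S k0 else ⨆ k : {k // k ≠ k0}, S k.1) b)
    (hx0 : τ x = 0) : x ∈ Submodule.span ℂ (U τ S k0 b) := by
  cases b with
  | true =>
    refine Submodule.subset_span ⟨[(k0, x)], by simp, ⟨?_, List.isChain_singleton _⟩, by simp,
      by simp⟩
    intro z hz
    rw [List.mem_singleton] at hz
    subst hz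
    exact ⟨by simpa using hx, hx0⟩
  | false =>
    have hx' : x ∈ ⨆ k : {k // k ≠ k0}, S k.1 := by simpa using hx
    have := V_centred hτ hS (sup_sub_V hτ hx')
    rwa [hx0, zero_smul, sub_zero] at this

theorem main (hτ : FTS τ) (hS : FreeFam τ S) (w : List (Bool × A)) :
    ∀ (b : Bool) (x : A) (_ : ∀ z ∈ (b, x) :: w, z.2 ∈
      (fun b : Bool => if b then S k0 else ⨆ k : {k // k ≠ k0}, S k.1) z.1 ∧ τ z.2 = 0)
      (_ : ((b, x) :: w).IsChain (fun x y => x.1 ≠ y.1)),
      (((b, x) :: w).map Prod.snd).prod ∈ Submodule.span ℂ (G τ S k0 b) := by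
  induction w with
  | nil =>
    intro b x h _
    have := h (b, x) (by simp)
    simp only [List.map_cons, List.map_nil, List.prod_cons, List.prod_nil, mul_one]
    exact Submodule.span_mono (U_sub_G b) (letter hτ hS b this.1 this.2)
  | cons y w ih =>
    intro b x h hc
    obtain ⟨b', x'⟩ := y
    have hx := h (b, x) (by simp)
    rw [List.isChain_cons_cons] at hc
    have hb : b' = !b := by
      have : b ≠ b' := hc.1
      cases b <;> cases b' <;> simp_all
    have h1 := ih b' x' (fun z hz => h z (List.mem_cons_of_mem _ hz)) hc.2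
    rw [List.map_cons, List.prod_cons]
    rw [hb] at h1 ⊢
    exact span_mul (letter hτ hS b hx.1 hx.2) h1

theorem t_GRP : S_GRP := by
  intro A _ τ hτ K S hS k0 w hw h1 h2
  cases w with
  | nil => exact absurd rfl hw
  | cons z w =>
    obtain ⟨b, x⟩ := z
    have h3 := main (k0 := k0) hτ hS w b x h1 h2
    have h4 : ∀ p ∈ Submodule.span ℂ (G τ S k0 b), τ p = 0 := by
      intro p hp
      induction hp using Submodule.span_induction with
      | mem p hp =>
        obtain ⟨v, g1, g2, g3, rfl⟩ := hp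
        exact hS v g1 g2.1 g2.2
      | zero => exact map_zero _
      | add q q' _ _ h h' => rw [map_add, h, h', add_zero]
      | smul c q _ h => rw [map_smul, h, smul_zero]
    exact h4 _ h3

end Pool.Agent.H923R2.FP.T_GRP
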