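import Pool.Agent.H326R2.Pi.Stmts

/-! Task T1 (helper89): `S_odd` and `S_low`. -/

open Polynomial Filter

namespace Pool.Agent.H326R2.Pi

namespace T1

lemma LL_add {R : Type*} [CommRing R] (m : ℕ) (a b : R[X]) : LL m (a + b) = LL m a + LL m b := by
  unfold LL
  rw [derivative_add]
  ring

lemma LL_zero {R : Type*} [CommRing R] (m : ℕ) : LL m (0 : R[X]) = 0 := by
  unfold LL
  rw [derivative_zero]
  ring

lemma LL_C {R : Type*} [CommRing R] (m : ℕ) (c : R) (a : R[X]) : LL m (C c * a) = C c * LL m a := by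
  unfold LL
  rw [derivative_C_mul]
  ring

lemma LL_sum {R : Type*} [CommRing R] (m : ℕ) {ι : Type*} (s : Finset ι) (f : ι → R[X]) :
    LL m (∑ i ∈ s, f i) = ∑ i ∈ s, LL m (f i) := by
  classical
  induction s using Finset.induction_on with
  | empty => simp [LL_zero]
  | insert i s hi ih => rw [Finset.sum_insert hi, Finset.sum_insert hi, LL_add, ih]

lemma d8 : derivative (X ^ 2 - 8 : ℤ[X]) = 2 * X := by
  rw [derivative_sub, derivative_X_pow, derivative_ofNat]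
  simp

lemma dpow (k : ℕ) : (X ^ 2 - 8 : ℤ[X]) * derivative ((X ^ 2 - 8 : ℤ[X]) ^ k) =
    2 * (k : ℤ[X]) * X * (X ^ 2 - 8) ^ k := by
  rcases k with _ | k
  · simp
  · rw [derivative_pow, d8]
    simp only [Nat.add_sub_cancel, map_natCast]
    ring

lemma LL_pow (m k : ℕ) : LL m ((X ^ 2 - 8 : ℤ[X]) ^ k) =
    C (2 * (k : ℤ) + 1 - 2 * (m : ℤ)) * (X * (X ^ 2 - 8) ^ k) := by
  unfold LL
  rw [dpow]
  simp only [map_sub, map_add, map_mul, map_ofNat, map_natCast, map_one]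
  ring

lemma deg8 (k : ℕ) : ((X ^ 2 - 8 : ℤ[X]) ^ k).natDegree ≤ 2 * k := by
  have h : (X ^ 2 - 8 : ℤ[X]).natDegree ≤ 2 := by
    rw [show (8 : ℤ[X]) = C 8 by simp]
    exact (natDegree_X_pow_sub_C).le
  exact (natDegree_pow_le_of_le k h).trans (by omega)

theorem odd : S_odd := by
  intro m N L hm hN hL k hk
  have hc : (2 * (k : ℤ) + 1 - 2 * (m : ℤ)) ∣ (L : ℤ) := by
    rw [← Int.natAbs_dvd_natAbs]
    have h1 : (2 * (k : ℤ) + 1 - 2 * (m : ℤ)).natAbs ∣ L := hL _ (by omega) (by omega)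
    simpa using h1
  obtain ⟨t, ht⟩ := hc
  refine ⟨0, C (8 ^ m * t) * (X ^ 2 - 8) ^ k, ?_, ?_⟩
  · refine (natDegree_C_mul_le _ _).trans ((deg8 k).trans ?_)
    omega
  · rw [LL_C, LL_pow, map_zero, zero_mul, sub_zero]
    have e : (L : ℤ[X]) = C ((2 * (k : ℤ) + 1 - 2 * (m : ℤ)) * t) := by
      rw [← ht]
      simp
    rw [e]
    simp only [map_mul, map_pow, map_ofNat]
    ring

lemma LL_low (m i : ℕ) (hi : i + 1 ≤ m) :
    LL m ((X : ℤ[X]) ^ (2 * i + 1) * (X ^ 2 - 8) ^ (m - 1 - i)) =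
      C (-(8 * (2 * (i : ℤ) + 1))) * ((X : ℤ[X]) ^ (2 * i) * (X ^ 2 - 8) ^ (m - 1 - i)) := by
  obtain ⟨j, rfl⟩ : ∃ j, m = i + 1 + j := ⟨m - (i + 1), by omega⟩
  have e : i + 1 + j - 1 - i = j := by omega
  rw [e]
  unfold LL
  rw [derivative_mul, derivative_X_pow, Nat.add_sub_cancel]
  have h := dpow j
  simp only [map_neg, map_add, map_mul, map_ofNat, map_natCast, map_one]
  push_cast
  have h2 : (X ^ 2 - 8 : ℤ[X]) * ((2 * (i : ℤ[X]) + 1) * X ^ (2 * i) * (X ^ 2 - 8) ^ j +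
      X ^ (2 * i + 1) * derivative ((X ^ 2 - 8) ^ j)) =
      (2 * (i : ℤ[X]) + 1) * X ^ (2 * i) * (X ^ 2 - 8) ^ j * (X ^ 2 - 8) +
      X ^ (2 * i + 1) * (2 * (j : ℤ[X]) * X * (X ^ 2 - 8) ^ j) := by
    rw [← h]
    ring
  rw [h2]
  ring

theorem low : S_low := by
  intro m N L hm hN hL k hk
  have hd : ∀ i : ℕ, i < m → ∃ t : ℤ, (L : ℤ) = (2 * (i : ℤ) + 1) * t := by
    intro i hi
    have h1 : (2 * i + 1) ∣ L := hL _ (by omega) (by omega)
    obtain ⟨t, ht⟩ := h1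
    exact ⟨t, by rw [ht]; push_cast; ring⟩
  choose! t ht using hd
  refine ⟨0, ∑ i ∈ Finset.range (m - k - 1 + 1),
    C (-(8 ^ k * t i * ((m - k - 1).choose i : ℤ) * (-1) ^ (m - k - 1 - i))) *
      (X ^ (2 * i + 1) * (X ^ 2 - 8) ^ (m - 1 - i)), ?_, ?_⟩
  · apply natDegree_sum_le_of_forall_le
    intro i hi
    rw [Finset.mem_range] at hi
    refine (natDegree_C_mul_le _ _).trans (natDegree_mul_le.trans ?_)
    have h1 := deg8 (m - 1 - i)
    rw [natDegree_X_pow]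
    omega
  · rw [LL_sum, map_zero, zero_mul, sub_zero]
    have e1 : ∀ i ∈ Finset.range (m - k - 1 + 1),
        LL m (C (-(8 ^ k * t i * ((m - k - 1).choose i : ℤ) * (-1) ^ (m - k - 1 - i))) *
          (X ^ (2 * i + 1) * (X ^ 2 - 8) ^ (m - 1 - i))) =
        (8 ^ (k + 1) * (L : ℤ[X]) * (X ^ 2 - 8) ^ k) *
          ((X ^ 2) ^ i * (-(X ^ 2 - 8)) ^ (m - k - 1 - i) * ((m - k - 1).choose i : ℤ[X])) := by
      intro i hi
      rw [Finset.mem_range] at hi
      rw [LL_C, LL_low m i (by omega)]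
      have e2 : (L : ℤ[X]) = C ((2 * (i : ℤ) + 1) * t i) := by
        rw [← ht i (by omega)]
        simp
      have e3 : m - 1 - i = k + (m - k - 1 - i) := by omega
      rw [e2, e3, neg_pow (X ^ 2 - 8 : ℤ[X]), pow_add]
      simp only [map_neg, map_add, map_mul, map_pow, map_ofNat, map_natCast, map_one]
      ring
    rw [Finset.sum_congr rfl e1, ← Finset.mul_sum, ← add_pow]
    have e4 : (X ^ 2 + -(X ^ 2 - 8) : ℤ[X]) = 8 := by ring
    have e5 : m = k + 1 + (m - k - 1) := by omega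
    rw [e4]
    conv_rhs => rw [e5, pow_add]
    ring

end T1

end Pool.Agent.H326R2.Pi
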