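import Mathlib
import Pool.Agent.H295R2.Mol.Defs

/-!
# T7b: Dirichlet L-functions are examples (helper89)
-/

set_option autoImplicit false

open MeasureTheory Filter Topology Set
open scoped ENNReal

namespace Pool.Agent.H89R2.Mol

open Pool.Agent.H295R2.Mol

theorem dirInst (h : DirGrowth) : DirInst := by
  intro q _ χ hχ
  refine ⟨⟨DirichletCharacter.differentiable_LFunction hχ, h q χ hχ, ?_, ?_⟩, ?_⟩
  · intro s hs
    rw [DirichletCharacter.LFunction_eq_LSeries χ hs]
    exact (DirichletCharacter.LSeriesSummable_of_one_lt_re χ hs).LSeriesHasSum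
  · intro s hs
    have h1 := DirichletCharacter.LSeries.mul_mu_eq_one χ hs
    have h2 : LSeriesSummable ((fun n : ℕ => χ n) * fun n : ℕ =>
        ((ArithmeticFunction.moebius n : ℤ) : ℂ)) s :=
      DirichletCharacter.LSeriesSummable_mul χ (ArithmeticFunction.LSeriesSummable_moebius_iff.2 hs)
    have h3 : (fun n : ℕ => ((ArithmeticFunction.moebius n : ℤ) : ℂ) * χ n) =
        ((fun n : ℕ => χ n) * fun n : ℕ => ((ArithmeticFunction.moebius n : ℤ) : ℂ)) := by
      funext n
      simp only [Pi.mul_apply]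
      ring
    rw [DirichletCharacter.LFunction_eq_LSeries χ hs]
    refine ⟨left_ne_zero_of_mul_eq_one h1, ?_⟩
    rw [h3, ← eq_inv_of_mul_eq_one_right h1]
    exact h2.LSeriesHasSum
  · rcases χ.even_or_odd with he | ho
    · exact ⟨_, he.LFunction_neg_two_mul_nat 1⟩
    · exact ⟨_, ho.LFunction_neg_two_mul_nat_sub_one 0⟩

end Pool.Agent.H89R2.Mol
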