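import Pool.Agent.H295R2.Nic.Defs

/-! N9, part A (helper89): the function `K(e^v)` and its right derivative. -/

set_option autoImplicit false

open MeasureTheory Filter Topology Set

namespace Pool.Agent.H89R2.NicOsc

open Pool.Agent.H295R2 Pool.Agent.H295R2.Nic

noncomputable section

/-- `h(u) = S(u) e^{-u} (1+u)/u²` -/
def hh (u : ℝ) : ℝ := Sv u * Real.exp (-u) * ((1 + u) / u ^ 2)

lemma Sv_meas : Measurable Sv := by
  unfold Sv
  exact (Chebyshev.psi_mono.measurable.comp Real.measurable_exp).sub Real.measurable_exp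

lemma hh_meas : Measurable hh := by
  unfold hh
  have h1 : Measurable (fun u : ℝ => Real.exp (-u)) := by fun_prop
  have h2 : Measurable (fun u : ℝ => (1 + u) / u ^ 2) := by
    apply Measurable.div
    · fun_prop
    · fun_prop
  exact (Sv_meas.mul h1).mul h2

lemma exp_image_Ioi (v : ℝ) : Real.exp '' Ioi v = Ioi (Real.exp v) := by
  ext t
  constructor
  · rintro ⟨u, hu, rfl⟩
    exact Real.exp_lt_exp.2 hu
  · intro ht
    have ht' : Real.exp v < t := ht
    have h0 : 0 < t := (Real.exp_pos v).trans ht'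
    exact ⟨Real.log t, (Real.lt_log_iff_exp_lt h0).2 ht', Real.exp_log h0⟩

lemma KK_eq (v : ℝ) : KK (Real.exp v) = ∫ u in Ioi v, hh u := by
  unfold KK
  rw [← exp_image_Ioi, integral_image_eq_integral_abs_deriv_smul measurableSet_Ioi
    (fun x _ => (Real.hasDerivAt_exp x).hasDerivWithinAt) Real.exp_injective.injOn]
  refine setIntegral_congr_fun measurableSet_Ioi (fun u _ => ?_)
  simp only [ell, Real.log_exp, hh, Sv, abs_of_pos (Real.exp_pos u), smul_eq_mul, Real.exp_neg]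
  generalize (1 + u) / u ^ 2 = q
  have := Real.exp_ne_zero u
  field_simp

lemma Sv_bound : ∃ C : ℝ, 0 < C ∧ ∀ u, 0 ≤ u → |Sv u| ≤ C * Real.exp u := by
  refine ⟨Real.log 4 + 4 + 1, by positivity, fun u hu => ?_⟩
  have h1 := Chebyshev.psi_le_const_mul_self (Real.exp_pos u).le
  have h2 := Chebyshev.psi_nonneg (Real.exp u)
  have h3 := Real.exp_pos u
  unfold Sv
  rw [abs_le]
  have h4 : 0 < Real.log 4 := Real.log_pos (by norm_num)
  constructor
  · nlinarith
  · nlinarith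

lemma hh_bound (hP : PsiLog) : ∃ C : ℝ, 0 < C ∧ ∀ u, 1 ≤ u → |hh u| ≤ C * u ^ (-2 : ℝ) := by
  obtain ⟨C, hC⟩ := hP
  have hC0 : 0 ≤ C := by
    have h := (abs_nonneg _).trans (hC 2 le_rfl)
    have h2 : 0 < Real.log 2 := Real.log_pos (by norm_num)
    by_contra hneg
    rw [not_le] at hneg
    have : C * 2 / Real.log 2 < 0 := div_neg_of_neg_of_pos (by linarith) h2
    linarith
  refine ⟨2 * C + 1, by linarith, fun u hu => ?_⟩
  have hu0 : 0 < u := by linarith
  have he := Real.exp_pos u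
  have h2 : (2 : ℝ) ≤ Real.exp u := by
    have := Real.add_one_le_exp u
    linarith
  have h := hC (Real.exp u) h2
  rw [Real.log_exp] at h
  unfold hh Sv
  rw [abs_mul, abs_mul, abs_of_pos (Real.exp_pos (-u)),
    abs_of_pos (show 0 < (1 + u) / u ^ 2 by positivity)]
  have e1 : u ^ (-2 : ℝ) = 1 / u ^ 2 := by
    rw [Real.rpow_neg hu0.le, ← Real.rpow_natCast]
    norm_num
  rw [e1]
  calc |Chebyshev.psi (Real.exp u) - Real.exp u| * Real.exp (-u) * ((1 + u) / u ^ 2)
      ≤ (C * Real.exp u / u) * Real.exp (-u) * ((1 + u) / u ^ 2) := by gcongr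
    _ = C * ((1 + u) / u) * (1 / u ^ 2) := by
        rw [Real.exp_neg]
        field_simp
    _ ≤ C * 2 * (1 / u ^ 2) := by
        gcongr
        rw [div_le_iff₀ hu0]
        linarith
    _ ≤ (2 * C + 1) * (1 / u ^ 2) := by
        gcongr
        linarith

lemma hh_int (hP : PsiLog) : IntegrableOn hh (Ioi 1) := by
  obtain ⟨C, hC0, hC⟩ := hh_bound hP
  have h1 : IntegrableOn (fun u : ℝ => C * u ^ (-2 : ℝ)) (Ioi 1) :=
    (integrableOn_Ioi_rpow_of_lt (by norm_num) one_pos).const_mul C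
  refine Integrable.mono' h1 hh_meas.aestronglyMeasurable ?_
  refine (ae_restrict_iff' measurableSet_Ioi).2 (ae_of_all _ fun u hu => ?_)
  exact hC u (le_of_lt hu)

lemma KK_bound (hP : PsiLog) : ∃ C : ℝ, 0 < C ∧ ∀ v, 1 ≤ v → |KK (Real.exp v)| ≤ C := by
  refine ⟨(∫ u in Ioi (1 : ℝ), |hh u|) + 1, ?_, fun v hv => ?_⟩
  · have : 0 ≤ ∫ u in Ioi (1 : ℝ), |hh u| := integral_nonneg fun _ => abs_nonneg _
    linarith
  · rw [KK_eq]
    have h1 : |∫ u in Ioi v, hh u| ≤ ∫ u in Ioi v, |hh u| := abs_integral_le_integral_abs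
    have h2 : ∫ u in Ioi v, |hh u| ≤ ∫ u in Ioi (1 : ℝ), |hh u| :=
      setIntegral_mono_set (hh_int hP).abs (ae_of_all _ fun _ => abs_nonneg _)
        (Ioi_subset_Ioi hv).eventuallyLE
    linarith

/-- `ψ(e^v)` is right continuous -/
lemma psi_right (v : ℝ) : ContinuousWithinAt (fun u => Chebyshev.psi (Real.exp u)) (Ici v) v := by
  have h1 : ∀ᶠ u in 𝓝[Ici v] v, Real.exp u < ⌊Real.exp v⌋₊ + 1 := by
    have h2 : ∀ᶠ u in 𝓝 v, Real.exp u < ⌊Real.exp v⌋₊ + 1 :=
      (Real.continuous_exp.tendsto v).eventually_lt_const (Nat.lt_floor_add_one _)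
    exact h2.filter_mono nhdsWithin_le_nhds
  have h3 : ∀ᶠ u in 𝓝[Ici v] v, Chebyshev.psi (Real.exp u) = Chebyshev.psi (Real.exp v) := by
    filter_upwards [h1, self_mem_nhdsWithin] with u hu1 hu2
    have hfl : ⌊Real.exp u⌋₊ = ⌊Real.exp v⌋₊ := by
      rw [Nat.floor_eq_iff (Real.exp_pos u).le]
      exact ⟨(Nat.floor_le (Real.exp_pos v).le).trans (Real.exp_le_exp.2 hu2), hu1⟩
    rw [Chebyshev.psi_eq_psi_coe_floor, hfl, ← Chebyshev.psi_eq_psi_coe_floor]
  exact (tendsto_const_nhds.congr' (h3.mono fun _ h => h.symm))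

lemma hh_right (v : ℝ) (hv : 0 < v) : ContinuousWithinAt hh (Ioi v) v := by
  have h1 : ContinuousWithinAt (fun u => Chebyshev.psi (Real.exp u)) (Ioi v) v :=
    (psi_right v).mono Ioi_subset_Ici_self
  have h2 : ContinuousWithinAt (fun u : ℝ => Real.exp u) (Ioi v) v :=
    Real.continuous_exp.continuousWithinAt
  have h3 : ContinuousWithinAt (fun u : ℝ => Real.exp (-u)) (Ioi v) v := by
    apply Continuous.continuousWithinAt
    fun_prop
  have h4 : ContinuousWithinAt (fun u : ℝ => (1 + u) / u ^ 2) (Ioi v) v := by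
    apply ContinuousAt.continuousWithinAt
    apply ContinuousAt.div
    · fun_prop
    · fun_prop
    · positivity
  exact ((h1.sub h2).mul h3).mul h4

lemma hh_ii (hP : PsiLog) {v w : ℝ} (hv : 1 ≤ v) (hw : 1 ≤ w) :
    IntervalIntegrable hh volume v w := by
  rw [intervalIntegrable_iff]
  refine (hh_int hP).mono_set ?_
  intro x hx
  rw [uIoc, mem_Ioc] at hx
  exact lt_of_le_of_lt (le_min hv hw) hx.1

lemma KK_sub (hP : PsiLog) {v w : ℝ} (hv : 1 ≤ v) (hw : 1 ≤ w) :
    KK (Real.exp w) = KK (Real.exp v) - ∫ u in v..w, hh u := by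
  have h := intervalIntegral.integral_Ioi_sub_Ioi' (f := hh) (μ := volume)
    ((hh_int hP).mono_set (Ioi_subset_Ioi hv)) ((hh_int hP).mono_set (Ioi_subset_Ioi hw))
  rw [KK_eq, KK_eq, ← h]
  ring

lemma KK_contOn (hP : PsiLog) {v0 v1 : ℝ} (h0 : 1 ≤ v0) (h1 : v0 ≤ v1) :
    ContinuousOn (fun v => KK (Real.exp v)) (uIcc v0 v1) := by
  have h2 : ContinuousOn (fun w => ∫ u in v0..w, hh u) (uIcc v0 v1) :=
    intervalIntegral.continuousOn_primitive_interval' (hh_ii hP h0 (h0.trans h1)) left_mem_uIcc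
  have h3 : ContinuousOn (fun w => KK (Real.exp v0) - ∫ u in v0..w, hh u) (uIcc v0 v1) :=
    continuousOn_const.sub h2
  refine h3.congr fun v hv => ?_
  rw [uIcc_of_le h1] at hv
  exact KK_sub hP h0 (h0.trans hv.1)

lemma KK_deriv (hP : PsiLog) {v0 v : ℝ} (h0 : 1 ≤ v0) (h1 : v0 < v) :
    HasDerivWithinAt (fun v => KK (Real.exp v)) (-hh v) (Ioi v) v := by
  have h2 : HasDerivWithinAt (fun w => ∫ u in v0..w, hh u) (hh v) (Ici v) v :=
    intervalIntegral.integral_hasDerivWithinAt_right (hh_ii hP h0 (h0.trans h1.le))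
      (hh_meas.stronglyMeasurable.stronglyMeasurableAtFilter) (hh_right v (by linarith))
  have h3 := (h2.mono Ioi_subset_Ici_self).const_sub (KK (Real.exp v0))
  refine h3.congr (fun w hw => ?_) ?_
  · have hw' : v < w := hw
    exact KK_sub hP h0 (by linarith)
  · exact KK_sub hP h0 (by linarith)

lemma KK_contOn' (hP : PsiLog) : ContinuousOn (fun v => KK (Real.exp v)) (Ioi 1) := by
  intro v hv
  have hv1 : (1 : ℝ) < v := hv
  have h := KK_contOn hP (v0 := 1) (v1 := v + 1) le_rfl (by linarith) v (by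
    rw [uIcc_of_le (by linarith)]
    exact ⟨hv1.le, by linarith⟩)
  apply ContinuousAt.continuousWithinAt
  refine h.continuousAt ?_
  rw [uIcc_of_le (by linarith)]
  exact Icc_mem_nhds hv1 (by linarith)

/-- integration by parts -/
lemma by_parts (hP : PsiLog) {v0 v1 : ℝ} (h0 : 1 ≤ v0) (h1 : v0 ≤ v1) (φ φ' : ℝ → ℂ)
    (hφ : ∀ v, 0 < v → HasDerivAt φ (φ' v) v) (hφ' : ContinuousOn φ' (Ioi 0)) :
    ∫ v in v0..v1, φ v * (hh v : ℂ) = φ v0 * (KK (Real.exp v0) : ℂ) - φ v1 * (KK (Real.exp v1) : ℂ) +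
      ∫ v in v0..v1, φ' v * (KK (Real.exp v) : ℂ) := by
  have hsub : uIcc v0 v1 ⊆ Ioi 0 := by
    rw [uIcc_of_le h1]
    intro x hx
    exact lt_of_lt_of_le (by linarith) hx.1
  have hc : ContinuousOn φ (uIcc v0 v1) := fun v hv => (hφ v (hsub hv)).continuousAt.continuousWithinAt
  have hK : ContinuousOn (fun v => (KK (Real.exp v) : ℂ)) (uIcc v0 v1) :=
    Complex.continuous_ofReal.comp_continuousOn (KK_contOn hP h0 h1)
  have hhc : IntervalIntegrable (fun v => (hh v : ℂ)) volume v0 v1 :=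
    ⟨(hh_ii hP h0 (h0.trans h1)).1.ofReal, (hh_ii hP h0 (h0.trans h1)).2.ofReal⟩
  have h := intervalIntegral.integral_mul_deriv_eq_deriv_mul_of_hasDeriv_right (u := φ) (u' := φ')
    (v := fun v => (KK (Real.exp v) : ℂ)) (v' := fun v => (-(hh v : ℂ))) (a := v0) (b := v1)
    hc hK (fun x hx => by
      rw [min_eq_left h1, max_eq_right h1] at hx
      exact (hφ x (by linarith [hx.1])).hasDerivWithinAt) (fun x hx => by
      rw [min_eq_left h1, max_eq_right h1] at hx
      have := (KK_deriv hP h0 hx.1).ofReal_comp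
      simpa using this)
    (hφ'.mono hsub).intervalIntegrable (hhc.neg)
  have e : ∀ v, φ v * (hh v : ℂ) = -(φ v * (-(hh v : ℂ))) := fun v => by ring
  simp only [e]
  rw [intervalIntegral.integral_neg, h]
  ring

end

end Pool.Agent.H89R2.NicOsc
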