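import Pool.Agent.H89R2.NicOscA

/-! N9, part B (helper89): Gaussian weights. -/

set_option autoImplicit false

open MeasureTheory Filter Topology Set

namespace Pool.Agent.H89R2.NicOsc

open Pool.Agent.H295R2 Pool.Agent.H295R2.Nic

noncomputable section

def GG (δ μ v : ℝ) : ℝ := Real.exp (-(v - μ) ^ 2 / (2 * (δ * μ)))

lemma GG_pos (δ μ v : ℝ) : 0 < GG δ μ v := Real.exp_pos _

lemma GG_le_one {δ μ : ℝ} (hδ : 0 < δ) (hμ : 0 < μ) (v : ℝ) : GG δ μ v ≤ 1 := by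
  unfold GG
  rw [Real.exp_le_one_iff]
  apply div_nonpos_of_nonpos_of_nonneg
  · nlinarith [sq_nonneg (v - μ)]
  · positivity

lemma GG_cont (δ μ : ℝ) : Continuous (GG δ μ) := by
  unfold GG
  fun_prop

lemma GG_tail {e δ μ v : ℝ} (he : 0 < e) (he1 : e ≤ 1) (hδ : 0 < δ) (hδ1 : δ ≤ e ^ 2 / 40)
    (hμ : 0 < μ) (hv : e * μ ≤ |v - μ|) : GG δ μ v ≤ Real.exp (-5 * v) * Real.exp (-5 * μ) := by
  unfold GG
  rw [← Real.exp_add]
  apply Real.exp_le_exp.2
  rw [div_le_iff₀ (by positivity)]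
  have h1 : v ≤ μ + |v - μ| := by
    have := le_abs_self (v - μ)
    linarith
  set d := |v - μ| with hd
  have h2 : (v - μ) ^ 2 = d ^ 2 := by rw [hd, sq_abs]
  rw [h2]
  have hd0 : 0 ≤ d := abs_nonneg _
  have hem : 0 < e * μ := by positivity
  have h3 : (5 * v + 5 * μ) * (2 * (δ * μ)) ≤ d ^ 2 := by
    have h4 : (5 * v + 5 * μ) ≤ 5 * (2 * μ + d) := by linarith
    calc (5 * v + 5 * μ) * (2 * (δ * μ)) ≤ 5 * (2 * μ + d) * (2 * (δ * μ)) := by gcongr
      _ ≤ 5 * (2 * μ + d) * (2 * ((e ^ 2 / 40) * μ)) := by gcongr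
      _ = (e * μ) ^ 2 / 2 + e / 4 * ((e * μ) * d) := by ring
      _ ≤ d ^ 2 / 2 + 1 / 4 * (d * d) := by
          gcongr
      _ ≤ d ^ 2 := by nlinarith [sq_nonneg d]
  linarith

lemma GG_tail' {e δ μ v : ℝ} (he : 0 < e) (he1 : e ≤ 1) (hδ : 0 < δ) (hδ1 : δ ≤ e ^ 2 / 40)
    (hμ : 0 < μ) (hv : v ≤ (1 - e) * μ ∨ (1 + e) * μ ≤ v) :
    GG δ μ v ≤ Real.exp (-5 * v) * Real.exp (-5 * μ) := by
  apply GG_tail he he1 hδ hδ1 hμ
  rcases hv with hv | hv
  · have := neg_abs_le (v - μ)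
    linarith
  · have := le_abs_self (v - μ)
    linarith

lemma exp4_int : IntegrableOn (fun v : ℝ => Real.exp (-4 * v)) (Ioi 0) :=
  integrableOn_exp_mul_Ioi (by norm_num) 0

lemma exp4_val : ∫ v in Ioi (0 : ℝ), Real.exp (-4 * v) ≤ 1 := by
  rw [integral_exp_mul_Ioi (by norm_num)]
  norm_num

/-- tails of Gaussian averages -/
lemma tail {e δ μ s C : ℝ} (he : 0 < e) (he1 : e ≤ 1 / 4) (hδ : 0 < δ) (hδ1 : δ ≤ e ^ 2 / 40)
    (hμ : 2 ≤ μ) (hs : 0 ≤ s) (hs1 : s ≤ 1) (hC : 0 ≤ C) (f : ℝ → ℂ)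
    (hf : AEStronglyMeasurable f (volume.restrict (Ioi s))) (hb : ∀ v, s < v → ‖f v‖ ≤ C * Real.exp v) :
    IntegrableOn (fun v => f v * (GG δ μ v : ℂ)) (Ioi s) ∧
    ‖(∫ v in Ioi s, f v * (GG δ μ v : ℂ)) -
      ∫ v in ((1 - e) * μ)..((1 + e) * μ), f v * (GG δ μ v : ℂ)‖ ≤ C * Real.exp (-5 * μ) := by
  have hμ0 : 0 < μ := by linarith
  set v0 := (1 - e) * μ with hv0
  set v1 := (1 + e) * μ with hv1
  have h01 : v0 ≤ v1 := by nlinarith
  have hs0 : s ≤ v0 := by nlinarith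
  have hm : AEStronglyMeasurable (fun v => f v * (GG δ μ v : ℂ)) (volume.restrict (Ioi s)) :=
    hf.mul (Complex.continuous_ofReal.comp (GG_cont δ μ)).aestronglyMeasurable
  have hsub : Ioc v0 v1 ⊆ Ioi s := fun x hx => lt_of_le_of_lt hs0 hx.1
  have hnorm : ∀ v, ‖f v * (GG δ μ v : ℂ)‖ = ‖f v‖ * GG δ μ v := by
    intro v
    rw [norm_mul, Complex.norm_real, Real.norm_eq_abs, abs_of_pos (GG_pos _ _ _)]
  have hb1 : ∀ v ∈ Ioi s \ Ioc v0 v1, ‖f v * (GG δ μ v : ℂ)‖ ≤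
      (C * Real.exp (-5 * μ)) * Real.exp (-4 * v) := by
    intro v hv
    have hsv : s < v := hv.1
    have ht : v ≤ v0 ∨ v1 ≤ v := by
      by_contra hcon
      rw [not_or, not_le, not_le] at hcon
      exact hv.2 ⟨hcon.1, hcon.2.le⟩
    rw [hnorm]
    calc ‖f v‖ * GG δ μ v ≤ (C * Real.exp v) * (Real.exp (-5 * v) * Real.exp (-5 * μ)) := by
          gcongr
          · exact (GG_pos _ _ _).le
          · exact hb v hsv
          · exact GG_tail' he (by linarith) hδ hδ1 hμ0 ht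
      _ = (C * Real.exp (-5 * μ)) * (Real.exp v * Real.exp (-5 * v)) := by ring
      _ = (C * Real.exp (-5 * μ)) * Real.exp (-4 * v) := by
          rw [← Real.exp_add]
          congr 2
          ring
  have hi1 : IntegrableOn (fun v : ℝ => (C * Real.exp (-5 * μ)) * Real.exp (-4 * v)) (Ioi 0) :=
    exp4_int.const_mul _
  have hmd : MeasurableSet (Ioi s \ Ioc v0 v1) := measurableSet_Ioi.diff measurableSet_Ioc
  have hsd : Ioi s \ Ioc v0 v1 ⊆ Ioi 0 := fun x hx => lt_of_le_of_lt hs hx.1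
  have hid : IntegrableOn (fun v => f v * (GG δ μ v : ℂ)) (Ioi s \ Ioc v0 v1) :=
    Integrable.mono' (hi1.mono_set hsd) (hm.mono_set sdiff_subset)
      ((ae_restrict_iff' hmd).2 (ae_of_all _ hb1))
  have hic : IntegrableOn (fun v => f v * (GG δ μ v : ℂ)) (Ioc v0 v1) := by
    have hci : IntegrableOn (fun _ : ℝ => C * Real.exp v1) (Ioc v0 v1) := by
      rw [integrableOn_const_iff]
      right
      rw [Real.volume_Ioc]
      exact ENNReal.ofReal_lt_top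
    refine Integrable.mono' hci (hm.mono_set hsub)
      ((ae_restrict_iff' measurableSet_Ioc).2 (ae_of_all _ fun v hv => ?_))
    rw [hnorm]
    calc ‖f v‖ * GG δ μ v ≤ (C * Real.exp v) * 1 := by
          gcongr
          · exact (GG_pos _ _ _).le
          · exact hb v (hsub hv)
          · exact GG_le_one hδ hμ0 v
      _ ≤ C * Real.exp v1 := by
          rw [mul_one]
          gcongr
          exact hv.2
  have hi : IntegrableOn (fun v => f v * (GG δ μ v : ℂ)) (Ioi s) := by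
    have := hid.union hic
    rwa [sdiff_union_of_subset hsub] at this
  refine ⟨hi, ?_⟩
  rw [intervalIntegral.integral_of_le h01, ← setIntegral_sdiff measurableSet_Ioc hi hsub]
  calc ‖∫ v in Ioi s \ Ioc v0 v1, f v * (GG δ μ v : ℂ)‖
      ≤ ∫ v in Ioi s \ Ioc v0 v1, ‖f v * (GG δ μ v : ℂ)‖ := norm_integral_le_integral_norm _
    _ ≤ ∫ v in Ioi s \ Ioc v0 v1, (C * Real.exp (-5 * μ)) * Real.exp (-4 * v) :=
        setIntegral_mono_on hid.norm (hi1.mono_set hsd) hmd hb1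
    _ ≤ ∫ v in Ioi (0 : ℝ), (C * Real.exp (-5 * μ)) * Real.exp (-4 * v) :=
        setIntegral_mono_set hi1 (ae_of_all _ fun _ => by positivity) hsd.eventuallyLE
    _ = (C * Real.exp (-5 * μ)) * ∫ v in Ioi (0 : ℝ), Real.exp (-4 * v) := integral_const_mul _ _
    _ ≤ (C * Real.exp (-5 * μ)) * 1 := by
        gcongr
        exact exp4_val
    _ = _ := mul_one _

end

end Pool.Agent.H89R2.NicOsc
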