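import Pool.Agent.H89R2.NicOscB

/-! N9, part C (helper89): the test function and the assembly. -/

set_option autoImplicit false

open MeasureTheory Filter Topology Set

namespace Pool.Agent.H89R2.NicOsc

open Pool.Agent.H295R2 Pool.Agent.H295R2.Nic

noncomputable section

/-- `e^{(a+iτ)v} G(v)` -/
def EE (a τ δ μ v : ℝ) : ℂ := Complex.exp (((a : ℂ) + τ * Complex.I) * v) * (GG δ μ v : ℂ)

lemma EE_norm (a τ δ μ v : ℝ) : ‖EE a τ δ μ v‖ = Real.exp (a * v) * GG δ μ v := by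
  unfold EE
  rw [norm_mul, Complex.norm_exp, Complex.norm_real, Real.norm_eq_abs, abs_of_pos (GG_pos _ _ _)]
  congr 2
  simp

def phi (a τ δ μ v : ℝ) : ℂ := ((v ^ 2 / (1 + v) : ℝ) : ℂ) * EE a τ δ μ v

def phi' (a τ δ μ v : ℝ) : ℂ :=
  ((((v ^ 2 + 2 * v) / (1 + v) ^ 2 : ℝ) : ℂ) + ((v ^ 2 / (1 + v) : ℝ) : ℂ) *
    ((a : ℂ) + τ * Complex.I - (((v - μ) / (δ * μ) : ℝ) : ℂ))) * EE a τ δ μ v

lemma GG_deriv (δ μ v : ℝ) (h : δ * μ ≠ 0) :
    HasDerivAt (GG δ μ) (-((v - μ) / (δ * μ)) * GG δ μ v) v := by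
  unfold GG
  have h1 : HasDerivAt (fun v : ℝ => -(v - μ) ^ 2 / (2 * (δ * μ))) (-((v - μ) / (δ * μ))) v := by
    have h2 := ((((hasDerivAt_id v).sub_const μ).pow 2).neg).div_const (2 * (δ * μ))
    have e : -((v - μ) / (δ * μ)) = -(((2 : ℕ) : ℝ) * (id v - μ) ^ (2 - 1) * 1) / (2 * (δ * μ)) := by
      simp only [id]
      field_simp
      norm_num
      ring
    rw [e]
    exact h2
  have h3 := h1.exp
  rw [mul_comm (-((v - μ) / (δ * μ)))]
  exact h3

lemma phi_deriv (a τ δ μ : ℝ) (h : δ * μ ≠ 0) (v : ℝ) (hv : 0 < v) :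
    HasDerivAt (phi a τ δ μ) (phi' a τ δ μ v) v := by
  have hv1 : (1 : ℝ) + v ≠ 0 := by linarith
  have h1 : HasDerivAt (fun v : ℝ => v ^ 2 / (1 + v)) ((v ^ 2 + 2 * v) / (1 + v) ^ 2) v := by
    have h2 := (hasDerivAt_pow 2 v).div ((hasDerivAt_id v).const_add 1) hv1
    have e : (v ^ 2 + 2 * v) / (1 + v) ^ 2 =
        ((((2 : ℕ) : ℝ)) * v ^ (2 - 1) * (1 + id v) - v ^ 2 * 1) / (1 + id v) ^ 2 := by
      simp only [id]
      congr 1
      norm_num
      ring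
    rw [e]
    exact h2
  have h3 : HasDerivAt (fun v : ℝ => Complex.exp (((a : ℂ) + τ * Complex.I) * v))
      (Complex.exp (((a : ℂ) + τ * Complex.I) * v) * ((a : ℂ) + τ * Complex.I)) v := by
    have h4 : HasDerivAt (fun v : ℝ => ((a : ℂ) + τ * Complex.I) * (v : ℂ))
        (((a : ℂ) + τ * Complex.I) * ((1 : ℝ) : ℂ)) v :=
      ((hasDerivAt_id v).ofReal_comp).const_mul _
    rw [Complex.ofReal_one, mul_one] at h4
    exact h4.cexp
  have h5 := h1.ofReal_comp.mul (h3.mul (GG_deriv δ μ v h).ofReal_comp)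
  have e : phi' a τ δ μ v = (((v ^ 2 + 2 * v) / (1 + v) ^ 2 : ℝ) : ℂ) *
      (Complex.exp (((a : ℂ) + τ * Complex.I) * v) * (GG δ μ v : ℂ)) +
      ((v ^ 2 / (1 + v) : ℝ) : ℂ) * (Complex.exp (((a : ℂ) + τ * Complex.I) * v) *
        ((a : ℂ) + τ * Complex.I) * (GG δ μ v : ℂ) +
        Complex.exp (((a : ℂ) + τ * Complex.I) * v) * ((-((v - μ) / (δ * μ)) * GG δ μ v : ℝ) : ℂ)) := by
    unfold phi' EE
    push_cast
    ring
  rw [e]
  exact h5

lemma phi'_cont (a τ δ μ : ℝ) : ContinuousOn (phi' a τ δ μ) (Ioi 0) := by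
  have hG := GG_cont δ μ
  unfold phi' EE
  apply ContinuousOn.mul
  · apply ContinuousOn.add
    · apply Complex.continuous_ofReal.comp_continuousOn
      apply ContinuousOn.div
      · fun_prop
      · fun_prop
      · intro x hx
        have : (0 : ℝ) < x := hx
        positivity
    · apply ContinuousOn.mul
      · apply Complex.continuous_ofReal.comp_continuousOn
        apply ContinuousOn.div
        · fun_prop
        · fun_prop
        · intro x hx
          have : (0 : ℝ) < x := hx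
          linarith
      · apply Continuous.continuousOn
        fun_prop
  · apply Continuous.continuousOn
    fun_prop

lemma phi_norm_le (a τ δ μ v : ℝ) (hv : 0 < v) (ha : a ≤ 1) :
    ‖phi a τ δ μ v‖ ≤ v * (Real.exp v * GG δ μ v) := by
  unfold phi
  rw [norm_mul, EE_norm, Complex.norm_real, Real.norm_eq_abs, abs_of_pos (by positivity)]
  have hG := GG_pos δ μ v
  gcongr
  · rw [div_le_iff₀ (by linarith)]
    nlinarith
  · nlinarith

lemma phi'_norm_le {a τ δ μ v : ℝ} (hv : 0 < v) (ha0 : 0 ≤ a) (ha : a ≤ 1) (hδ : 0 < δ) (hμ : 1 ≤ μ)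
    (hvμ : v ≤ 2 * μ) (hd : |v - μ| ≤ μ) :
    ‖phi' a τ δ μ v‖ ≤ (2 * μ * (2 + |τ| + 1 / δ)) * (Real.exp (a * v) * GG δ μ v) := by
  unfold phi'
  rw [norm_mul, EE_norm]
  have hG := GG_pos δ μ v
  have hE := Real.exp_pos (a * v)
  have hμ0 : 0 < μ := by linarith
  apply mul_le_mul_of_nonneg_right _ (by positivity)
  have h1 : ‖(((v ^ 2 + 2 * v) / (1 + v) ^ 2 : ℝ) : ℂ)‖ ≤ 1 := by
    rw [Complex.norm_real, Real.norm_eq_abs, abs_of_pos (by positivity), div_le_one (by positivity)]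
    nlinarith
  have h2 : ‖((v ^ 2 / (1 + v) : ℝ) : ℂ)‖ ≤ 2 * μ := by
    rw [Complex.norm_real, Real.norm_eq_abs, abs_of_pos (by positivity), div_le_iff₀ (by linarith)]
    nlinarith
  have h3 : ‖(a : ℂ) + τ * Complex.I - (((v - μ) / (δ * μ) : ℝ) : ℂ)‖ ≤ 1 + |τ| + 1 / δ := by
    have h4 : ‖(((v - μ) / (δ * μ) : ℝ) : ℂ)‖ ≤ 1 / δ := by
      rw [Complex.norm_real, Real.norm_eq_abs, abs_div, abs_of_pos (show 0 < δ * μ by positivity),
        div_le_div_iff₀ (by positivity) hδ]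
      nlinarith
    have h5 : ‖(a : ℂ) + τ * Complex.I‖ ≤ 1 + |τ| := by
      refine (norm_add_le _ _).trans ?_
      rw [norm_mul, Complex.norm_I, mul_one, Complex.norm_real, Complex.norm_real, Real.norm_eq_abs,
        Real.norm_eq_abs, abs_of_nonneg ha0]
      linarith
    exact (norm_sub_le _ _).trans (by linarith)
  have h6 : (0 : ℝ) ≤ 1 + |τ| + 1 / δ := by positivity
  calc ‖(((v ^ 2 + 2 * v) / (1 + v) ^ 2 : ℝ) : ℂ) + ((v ^ 2 / (1 + v) : ℝ) : ℂ) *
        ((a : ℂ) + τ * Complex.I - (((v - μ) / (δ * μ) : ℝ) : ℂ))‖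
      ≤ 1 + (2 * μ) * (1 + |τ| + 1 / δ) := by
        refine (norm_add_le _ _).trans ?_
        rw [norm_mul]
        exact add_le_add h1 (mul_le_mul h2 h3 (norm_nonneg _) (by positivity))
    _ ≤ 2 * μ * (2 + |τ| + 1 / δ) := by nlinarith

/-- the integrand of `LocMain` -/
lemma integrand_eq (τ δ μ v : ℝ) (hv : 0 < v) :
    (Sv v : ℂ) * Complex.exp ((-zetaSup + τ * Complex.I) * v) * (GG δ μ v : ℂ) =
      phi (1 - zetaSup) τ δ μ v * (hh v : ℂ) := by
  unfold phi EE hh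
  have h1 : (v : ℂ) ≠ 0 := by exact_mod_cast hv.ne'
  have h2 : (1 + v : ℂ) ≠ 0 := by
    have : (1 + v : ℝ) ≠ 0 := by linarith
    exact_mod_cast this
  have e1 : Complex.exp ((-zetaSup + τ * Complex.I) * v) =
      Complex.exp ((((1 - zetaSup : ℝ) : ℂ) + τ * Complex.I) * v) * Complex.exp (-(v : ℂ)) := by
    rw [← Complex.exp_add]
    congr 1
    push_cast
    ring
  rw [e1]
  push_cast
  field_simp

end

end Pool.Agent.H89R2.NicOsc
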