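import Pool.Agent.H89R2.NicOscC

/-! N9, part D (helper89): the assembly. -/

set_option autoImplicit false

open MeasureTheory Filter Topology Set

namespace Pool.Agent.H89R2.NicOsc

open Pool.Agent.H295R2 Pool.Agent.H295R2.Nic

noncomputable section

lemma J_bound (hP : PsiLog) {e δ μ ε CK C₁ c : ℝ} (he : 0 < e) (he1 : e ≤ 1 / 4) (hδ : 0 < δ)
    (hδ1 : δ ≤ e ^ 2 / 40) (hμ : 2 ≤ μ) (hε : 0 < ε) (hCK : 0 < CK)
    (hK : ∀ v, 1 ≤ v → |KK (Real.exp v)| ≤ CK)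
    (hM1 : |∫ v in Ioi (1 : ℝ), KK (Real.exp v) * Real.exp ((1 - zetaSup) * v) *
      Real.exp (-(v - μ) ^ 2 / (2 * (δ * μ)))| ≤ C₁ * Real.exp (-c * μ))
    (hneg : ∀ v, (1 - e) * μ ≤ v → v ≤ (1 + e) * μ →
      -KK (Real.exp v) ≤ Real.exp ((zetaSup - 1 - ε) * v)) :
    ∫ v in ((1 - e) * μ)..((1 + e) * μ), |KK (Real.exp v)| * (Real.exp ((1 - zetaSup) * v) * GG δ μ v) ≤
      C₁ * Real.exp (-c * μ) + CK * Real.exp (-5 * μ) + μ * Real.exp (-(ε / 2) * μ) := by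
  have hΘ0 := half_le_zetaSup
  have hΘ1 := zetaSup_le_one
  have hμ0 : 0 < μ := by linarith
  have h01 : (1 - e) * μ ≤ (1 + e) * μ := by nlinarith
  have h10 : 1 ≤ (1 - e) * μ := by nlinarith
  obtain ⟨_, ht⟩ := tail he he1 hδ hδ1 hμ zero_le_one le_rfl hCK.le
    (fun v => ((KK (Real.exp v) * Real.exp ((1 - zetaSup) * v) : ℝ) : ℂ))
    (by
      apply ContinuousOn.aestronglyMeasurable _ measurableSet_Ioi
      apply Complex.continuous_ofReal.comp_continuousOn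
      apply (KK_contOn' hP).mul
      apply Continuous.continuousOn
      fun_prop)
    (by
      intro v hv
      rw [Complex.norm_real, Real.norm_eq_abs, abs_mul, abs_of_pos (Real.exp_pos _)]
      gcongr
      · exact hK v hv.le
      · nlinarith)
  have e1 : ∀ v : ℝ, ((KK (Real.exp v) * Real.exp ((1 - zetaSup) * v) : ℝ) : ℂ) * (GG δ μ v : ℂ) =
      ((KK (Real.exp v) * Real.exp ((1 - zetaSup) * v) * GG δ μ v : ℝ) : ℂ) := fun v => by
    push_cast
    ring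
  simp only [e1] at ht
  rw [integral_complex_ofReal, intervalIntegral.integral_ofReal, ← Complex.ofReal_sub, Complex.norm_real,
    Real.norm_eq_abs] at ht
  have hM2 : |∫ v in Ioi (1 : ℝ), KK (Real.exp v) * Real.exp ((1 - zetaSup) * v) * GG δ μ v| ≤
    C₁ * Real.exp (-c * μ) := hM1
  have hKc : ContinuousOn (fun v => KK (Real.exp v)) (uIcc ((1 - e) * μ) ((1 + e) * μ)) :=
    KK_contOn hP h10 h01
  have hGc := GG_cont δ μ
  have i1 : IntervalIntegrable (fun v => KK (Real.exp v) * Real.exp ((1 - zetaSup) * v) * GG δ μ v)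
      volume ((1 - e) * μ) ((1 + e) * μ) := by
    apply ContinuousOn.intervalIntegrable
    exact (hKc.mul (by fun_prop)).mul (by fun_prop)
  have i2 : IntervalIntegrable (fun v => |KK (Real.exp v)| * (Real.exp ((1 - zetaSup) * v) * GG δ μ v))
      volume ((1 - e) * μ) ((1 + e) * μ) := by
    apply ContinuousOn.intervalIntegrable
    exact hKc.abs.mul (by fun_prop)
  have i3 : IntervalIntegrable (fun _ : ℝ => 2 * Real.exp (-(ε / 2) * μ))
      volume ((1 - e) * μ) ((1 + e) * μ) := intervalIntegrable_const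
  have h2 : ∫ v in ((1 - e) * μ)..((1 + e) * μ),
      |KK (Real.exp v)| * (Real.exp ((1 - zetaSup) * v) * GG δ μ v) ≤
      ∫ v in ((1 - e) * μ)..((1 + e) * μ),
        (KK (Real.exp v) * Real.exp ((1 - zetaSup) * v) * GG δ μ v + 2 * Real.exp (-(ε / 2) * μ)) := by
    apply intervalIntegral.integral_mono_on h01 i2 (i1.add i3)
    intro v hv
    have hG := GG_pos δ μ v
    have hG1 := GG_le_one hδ hμ0 v
    have hn := hneg v hv.1 hv.2
    have hEp := Real.exp_pos ((1 - zetaSup) * v)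
    have h3 : |KK (Real.exp v)| ≤ KK (Real.exp v) + 2 * Real.exp ((zetaSup - 1 - ε) * v) := by
      have := Real.exp_pos ((zetaSup - 1 - ε) * v)
      rw [abs_le]
      constructor <;> linarith
    have h4 : Real.exp ((zetaSup - 1 - ε) * v) * (Real.exp ((1 - zetaSup) * v) * GG δ μ v) ≤
        Real.exp (-(ε / 2) * μ) := by
      rw [← mul_assoc, ← Real.exp_add]
      have h5 : (zetaSup - 1 - ε) * v + (1 - zetaSup) * v ≤ -(ε / 2) * μ := by
        have : μ / 2 ≤ v := by nlinarith [hv.1]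
        nlinarith
      calc Real.exp ((zetaSup - 1 - ε) * v + (1 - zetaSup) * v) * GG δ μ v
          ≤ Real.exp (-(ε / 2) * μ) * 1 := by gcongr
        _ = _ := mul_one _
    calc |KK (Real.exp v)| * (Real.exp ((1 - zetaSup) * v) * GG δ μ v)
        ≤ (KK (Real.exp v) + 2 * Real.exp ((zetaSup - 1 - ε) * v)) *
          (Real.exp ((1 - zetaSup) * v) * GG δ μ v) := by gcongr
      _ = KK (Real.exp v) * Real.exp ((1 - zetaSup) * v) * GG δ μ v +
          2 * (Real.exp ((zetaSup - 1 - ε) * v) * (Real.exp ((1 - zetaSup) * v) * GG δ μ v)) := by ring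
      _ ≤ _ := by linarith
  rw [intervalIntegral.integral_add i1 i3, intervalIntegral.integral_const] at h2
  refine h2.trans ?_
  have h6 : ((1 + e) * μ - (1 - e) * μ) • (2 * Real.exp (-(ε / 2) * μ)) ≤
      μ * Real.exp (-(ε / 2) * μ) := by
    rw [smul_eq_mul]
    have h7 : ((1 + e) * μ - (1 - e) * μ) * 2 ≤ μ := by nlinarith
    have h8 := Real.exp_pos (-(ε / 2) * μ)
    nlinarith
  have h9 := abs_le.1 ht
  have h10 := abs_le.1 hM2
  linarith [h9.1, h9.2, h10.1, h10.2]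

lemma phi_end {e τ δ μ v : ℝ} (he : 0 < e) (he1 : e ≤ 1 / 4) (hδ : 0 < δ)
    (hδ1 : δ ≤ e ^ 2 / 40) (hμ : 2 ≤ μ) (hv0 : 0 < v) (hv : v ≤ (1 - e) * μ ∨ (1 + e) * μ ≤ v) :
    ‖phi (1 - zetaSup) τ δ μ v‖ ≤ Real.exp (-5 * μ) := by
  have hΘ0 := half_le_zetaSup
  have hΘ1 := zetaSup_le_one
  have hG := GG_tail' he (by linarith) hδ hδ1 (by linarith) hv
  refine (phi_norm_le _ τ δ μ v hv0 (by linarith)).trans ?_
  have h1 : v ≤ Real.exp (4 * v) := by
    have := Real.add_one_le_exp (4 * v)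
    linarith
  calc v * (Real.exp v * GG δ μ v) ≤ Real.exp (4 * v) * (Real.exp v *
        (Real.exp (-5 * v) * Real.exp (-5 * μ))) := by
        gcongr
        exact mul_nonneg (Real.exp_pos _).le (GG_pos _ _ _).le
    _ = (Real.exp (4 * v) * Real.exp v * Real.exp (-5 * v)) * Real.exp (-5 * μ) := by ring
    _ = Real.exp (-5 * μ) := by
        rw [← Real.exp_add, ← Real.exp_add]
        have : 4 * v + v + -5 * v = 0 := by ring
        rw [this, Real.exp_zero, one_mul]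

lemma core (hP : PsiLog) {e δ μ ε τ CK CS C₁ c : ℝ} (he : 0 < e) (he1 : e ≤ 1 / 4) (hδ : 0 < δ)
    (hδ1 : δ ≤ e ^ 2 / 40) (hμ : 2 ≤ μ) (hε : 0 < ε) (hCK : 0 < CK) (hCS : 0 < CS)
    (hK : ∀ v, 1 ≤ v → |KK (Real.exp v)| ≤ CK) (hS : ∀ u, 0 ≤ u → |Sv u| ≤ CS * Real.exp u)
    (hM1 : |∫ v in Ioi (1 : ℝ), KK (Real.exp v) * Real.exp ((1 - zetaSup) * v) *
      Real.exp (-(v - μ) ^ 2 / (2 * (δ * μ)))| ≤ C₁ * Real.exp (-c * μ))
    (hneg : ∀ v, (1 - e) * μ ≤ v → v ≤ (1 + e) * μ →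
      -KK (Real.exp v) ≤ Real.exp ((zetaSup - 1 - ε) * v)) :
    ‖∫ v in Ioi (0 : ℝ), (Sv v : ℂ) * Complex.exp ((-zetaSup + τ * Complex.I) * v) *
      (Real.exp (-(v - μ) ^ 2 / (2 * (δ * μ))) : ℂ)‖ ≤
      (CS + 2 * CK) * Real.exp (-5 * μ) + (2 * μ * (2 + |τ| + 1 / δ)) *
        (C₁ * Real.exp (-c * μ) + CK * Real.exp (-5 * μ) + μ * Real.exp (-(ε / 2) * μ)) := by
  have hΘ0 := half_le_zetaSup
  have hΘ1 := zetaSup_le_one
  have hμ0 : 0 < μ := by linarith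
  have h01 : (1 - e) * μ ≤ (1 + e) * μ := by nlinarith
  have h10 : 1 ≤ (1 - e) * μ := by nlinarith
  have hJ := J_bound hP he he1 hδ hδ1 hμ hε hCK hK hM1 hneg
  obtain ⟨_, ht⟩ := tail he he1 hδ hδ1 hμ le_rfl zero_le_one hCS.le
    (fun v => (Sv v : ℂ) * Complex.exp ((-zetaSup + τ * Complex.I) * v))
    (by
      apply Measurable.aestronglyMeasurable
      exact (Complex.measurable_ofReal.comp Sv_meas).mul (by fun_prop))
    (by
      intro v hv
      rw [norm_mul, Complex.norm_real, Real.norm_eq_abs, Complex.norm_exp]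
      have h1 : ((-zetaSup + τ * Complex.I : ℂ) * v).re = -zetaSup * v := by simp
      rw [h1]
      have h2 : Real.exp (-zetaSup * v) ≤ 1 := by
        rw [Real.exp_le_one_iff]
        nlinarith
      calc |Sv v| * Real.exp (-zetaSup * v) ≤ (CS * Real.exp v) * 1 := by
            gcongr
            exact hS v hv.le
        _ = _ := mul_one _)
  have e1 : ∫ v in ((1 - e) * μ)..((1 + e) * μ),
      (Sv v : ℂ) * Complex.exp ((-zetaSup + τ * Complex.I) * v) * (GG δ μ v : ℂ) =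
      ∫ v in ((1 - e) * μ)..((1 + e) * μ), phi (1 - zetaSup) τ δ μ v * (hh v : ℂ) := by
    apply intervalIntegral.integral_congr
    intro v hv
    rw [uIcc_of_le h01] at hv
    exact integrand_eq τ δ μ v (by linarith [hv.1])
  have hδμ : δ * μ ≠ 0 := by positivity
  rw [e1, by_parts hP h10 h01 (phi (1 - zetaSup) τ δ μ) (phi' (1 - zetaSup) τ δ μ)
    (fun v hv => phi_deriv _ τ δ μ hδμ v hv) (phi'_cont _ τ δ μ)] at ht
  have hI : ‖∫ v in ((1 - e) * μ)..((1 + e) * μ),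
      phi' (1 - zetaSup) τ δ μ v * (KK (Real.exp v) : ℂ)‖ ≤
      (2 * μ * (2 + |τ| + 1 / δ)) * ∫ v in ((1 - e) * μ)..((1 + e) * μ),
        |KK (Real.exp v)| * (Real.exp ((1 - zetaSup) * v) * GG δ μ v) := by
    have hKc : ContinuousOn (fun v => KK (Real.exp v)) (uIcc ((1 - e) * μ) ((1 + e) * μ)) :=
      KK_contOn hP h10 h01
    have hGc := GG_cont δ μ
    rw [← intervalIntegral.integral_const_mul]
    apply intervalIntegral.norm_integral_le_of_norm_le h01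
    · apply ae_of_all
      intro v hv
      have hv0 : 0 < v := by linarith [hv.1]
      rw [norm_mul, Complex.norm_real, Real.norm_eq_abs]
      have h1 := phi'_norm_le (τ := τ) hv0 (show 0 ≤ 1 - zetaSup by linarith) (by linarith) hδ
        (show 1 ≤ μ by linarith) (by nlinarith [hv.2]) (by
          rw [abs_le]
          constructor
          · nlinarith [hv.1]
          · nlinarith [hv.2])
      calc ‖phi' (1 - zetaSup) τ δ μ v‖ * |KK (Real.exp v)|
          ≤ ((2 * μ * (2 + |τ| + 1 / δ)) * (Real.exp ((1 - zetaSup) * v) * GG δ μ v)) *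
            |KK (Real.exp v)| := by gcongr
        _ = _ := by ring
    · apply ContinuousOn.intervalIntegrable
      exact continuousOn_const.mul (hKc.abs.mul (by fun_prop))
  have hT : 0 < 2 * μ * (2 + |τ| + 1 / δ) := by positivity
  have hb0 : ‖phi (1 - zetaSup) τ δ μ ((1 - e) * μ) * (KK (Real.exp ((1 - e) * μ)) : ℂ)‖ ≤
      CK * Real.exp (-5 * μ) := by
    rw [norm_mul, Complex.norm_real, Real.norm_eq_abs, mul_comm]
    have h1 := phi_end (τ := τ) he he1 hδ hδ1 hμ (show 0 < (1 - e) * μ by linarith) (Or.inl le_rfl)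
    gcongr
    exact hK _ h10
  have hb1 : ‖phi (1 - zetaSup) τ δ μ ((1 + e) * μ) * (KK (Real.exp ((1 + e) * μ)) : ℂ)‖ ≤
      CK * Real.exp (-5 * μ) := by
    rw [norm_mul, Complex.norm_real, Real.norm_eq_abs, mul_comm]
    have h1 := phi_end (τ := τ) he he1 hδ hδ1 hμ (show 0 < (1 + e) * μ by linarith) (Or.inr le_rfl)
    gcongr
    exact hK _ (h10.trans h01)
  set A := ∫ v in Ioi (0 : ℝ), (Sv v : ℂ) * Complex.exp ((-zetaSup + τ * Complex.I) * v) *
      (GG δ μ v : ℂ) with hA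
  have hgoal : ∫ v in Ioi (0 : ℝ), (Sv v : ℂ) * Complex.exp ((-zetaSup + τ * Complex.I) * v) *
      (Real.exp (-(v - μ) ^ 2 / (2 * (δ * μ))) : ℂ) = A := rfl
  rw [hgoal]
  set B0 := phi (1 - zetaSup) τ δ μ ((1 - e) * μ) * (KK (Real.exp ((1 - e) * μ)) : ℂ)
  set B1 := phi (1 - zetaSup) τ δ μ ((1 + e) * μ) * (KK (Real.exp ((1 + e) * μ)) : ℂ)
  set I0 := ∫ v in ((1 - e) * μ)..((1 + e) * μ), phi' (1 - zetaSup) τ δ μ v * (KK (Real.exp v) : ℂ)
  have h1 : ‖A‖ ≤ ‖A - (B0 - B1 + I0)‖ + (‖B0‖ + ‖B1‖ + ‖I0‖) := by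
    have h2 : A = (A - (B0 - B1 + I0)) + (B0 - B1 + I0) := by ring
    calc ‖A‖ = ‖(A - (B0 - B1 + I0)) + (B0 - B1 + I0)‖ := by rw [← h2]
      _ ≤ ‖A - (B0 - B1 + I0)‖ + ‖B0 - B1 + I0‖ := norm_add_le _ _
      _ ≤ ‖A - (B0 - B1 + I0)‖ + (‖B0‖ + ‖B1‖ + ‖I0‖) := by
          gcongr
          refine (norm_add_le _ _).trans ?_
          gcongr
          exact norm_sub_le _ _
  have h3 := mul_le_mul_of_nonneg_left hJ hT.le
  linarith

lemma final_ineq {μ c' c ε CS CK : ℝ} (hμ : 2 ≤ μ) (h1 : c' ≤ c) (h2 : c' ≤ ε / 2) (h3 : c' ≤ 1)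
    (hCS : 0 ≤ CS) (hCK : 0 ≤ CK) (C₁ T : ℝ) (hT : 0 ≤ T) :
    (CS + 2 * CK) * Real.exp (-5 * μ) + (2 * μ * T) *
        (C₁ * Real.exp (-c * μ) + CK * Real.exp (-5 * μ) + μ * Real.exp (-(ε / 2) * μ)) ≤
      (CS + 2 * CK + 2 * T * (|C₁| + CK + 1)) * (μ ^ 2 * Real.exp (-c' * μ)) := by
  have hμ0 : 0 < μ := by linarith
  have hx1 : Real.exp (-5 * μ) ≤ Real.exp (-c' * μ) := by
    apply Real.exp_le_exp.2
    apply mul_le_mul_of_nonneg_right _ hμ0.le
    linarith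
  have hx2 : Real.exp (-c * μ) ≤ Real.exp (-c' * μ) := by
    apply Real.exp_le_exp.2
    apply mul_le_mul_of_nonneg_right _ hμ0.le
    linarith
  have hx3 : Real.exp (-(ε / 2) * μ) ≤ Real.exp (-c' * μ) := by
    apply Real.exp_le_exp.2
    apply mul_le_mul_of_nonneg_right _ hμ0.le
    linarith
  have hE := Real.exp_pos (-c' * μ)
  set E := Real.exp (-c' * μ) with hEd
  clear_value E
  have w1 : E ≤ μ * E := by
    have := mul_le_mul_of_nonneg_right (show (1 : ℝ) ≤ μ by linarith) hE.le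
    linarith
  have w2 : μ * E ≤ μ ^ 2 * E := by
    have := mul_le_mul_of_nonneg_left w1 hμ0.le
    calc μ * E ≤ μ * (μ * E) := this
      _ = μ ^ 2 * E := by ring
  have y1 : Real.exp (-5 * μ) ≤ μ ^ 2 * E := by linarith
  have y2 : C₁ * Real.exp (-c * μ) ≤ |C₁| * (μ * E) := by
    have z1 : C₁ * Real.exp (-c * μ) ≤ |C₁| * Real.exp (-c * μ) :=
      mul_le_mul_of_nonneg_right (le_abs_self _) (Real.exp_pos _).le
    exact z1.trans (mul_le_mul_of_nonneg_left (by linarith) (abs_nonneg _))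
  have y3 : Real.exp (-5 * μ) ≤ μ * E := by linarith
  have y4 : CK * Real.exp (-5 * μ) ≤ CK * (μ * E) := mul_le_mul_of_nonneg_left y3 hCK
  have y5 : μ * Real.exp (-(ε / 2) * μ) ≤ μ * E := mul_le_mul_of_nonneg_left hx3 hμ0.le
  have y6 : (CS + 2 * CK) * Real.exp (-5 * μ) ≤ (CS + 2 * CK) * (μ ^ 2 * E) :=
    mul_le_mul_of_nonneg_left y1 (by linarith)
  have hT2 : 0 ≤ 2 * μ * T := by positivity
  have y7 := mul_le_mul_of_nonneg_left (add_le_add (add_le_add y2 y4) y5) hT2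
  calc (CS + 2 * CK) * Real.exp (-5 * μ) + (2 * μ * T) *
        (C₁ * Real.exp (-c * μ) + CK * Real.exp (-5 * μ) + μ * Real.exp (-(ε / 2) * μ))
        ≤ (CS + 2 * CK) * (μ ^ 2 * E) + (2 * μ * T) *
        (|C₁| * (μ * E) + CK * (μ * E) + μ * E) := add_le_add y6 y7
    _ = _ := by ring

/-- **N9** -/
theorem osc (hP : PsiLog) (hM : MeanK) (hL : LocMain) : Osc := by
  intro ε ε₁ hε hε₁ hε₁1
  obtain ⟨CK, hCK, hK⟩ := KK_bound hP
  obtain ⟨CS, hCS, hS⟩ := Sv_bound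
  have hΘ0 := half_le_zetaSup
  have hΘ1 := zetaSup_le_one
  obtain ⟨e, he⟩ : ∃ e : ℝ, e = ε₁ / 4 := ⟨_, rfl⟩
  have he0 : 0 < e := by linarith
  have he1 : e ≤ 1 / 4 := by linarith
  obtain ⟨δ, hδe⟩ : ∃ δ : ℝ, δ = e ^ 2 / 40 := ⟨_, rfl⟩
  have hδ : 0 < δ := by rw [hδe]; positivity
  have hδ1 : δ ≤ 1 := by rw [hδe]; nlinarith
  obtain ⟨c, C₁, hc, hM1⟩ := hM δ hδ hδ1
  obtain ⟨c', hc'⟩ : ∃ c' : ℝ, c' = min c (min (ε / 2) 1) := ⟨_, rfl⟩
  have hc'0 : 0 < c' := by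
    rw [hc']
    exact lt_min hc (lt_min (by linarith) one_pos)
  have hc'1 : c' ≤ c := by rw [hc']; exact min_le_left _ _
  have hc'2 : c' ≤ ε / 2 := by rw [hc']; exact (min_le_right _ _).trans (min_le_left _ _)
  have hc'3 : c' ≤ 1 := by rw [hc']; exact (min_le_right _ _).trans (min_le_right _ _)
  obtain ⟨τ, μ₀, hL1⟩ := hL δ hδ hδ1 (c' / 2) (by linarith)
  have hT : 0 < 2 + |τ| + 1 / δ := by positivity
  obtain ⟨M, hM0⟩ : ∃ M : ℝ, M = CS + 2 * CK + 2 * (2 + |τ| + 1 / δ) * (|C₁| + CK + 1) := ⟨_, rfl⟩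
  obtain ⟨μ₁, hμ₁⟩ : ∃ μ₁ : ℝ, ∀ μ : ℝ, μ₁ ≤ μ → M * (μ ^ 2 * Real.exp (-(c' / 2) * μ)) < 1 := by
    have h1 : Tendsto (fun μ : ℝ => μ ^ 2 * Real.exp (-(c' / 2) * μ)) atTop (𝓝 0) := by
      have h2 := (Real.tendsto_pow_mul_exp_neg_atTop_nhds_zero 2).comp
        (tendsto_id.const_mul_atTop (show 0 < c' / 2 by linarith))
      have h3 := h2.const_mul ((c' / 2)⁻¹ ^ 2)
      rw [mul_zero] at h3
      refine h3.congr fun x => ?_
      have h4 : c' / 2 ≠ 0 := by linarith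
      simp only [Function.comp, id]
      rw [mul_pow, ← neg_mul]
      field_simp
    have h5 := h1.const_mul M
    rw [mul_zero] at h5
    obtain ⟨μ₁, h6⟩ := eventually_atTop.1 (h5.eventually_lt_const (show (0 : ℝ) < 1 by norm_num))
    exact ⟨μ₁, h6⟩
  refine ⟨Real.exp ((1 + e) * max 2 (max μ₀ μ₁)), fun Y hY => ?_⟩
  by_contra hcon
  simp only [not_exists, not_and, not_le] at hcon
  have hY0 : 0 < Y := (Real.exp_pos _).trans_le hY
  obtain ⟨μ, hμd⟩ : ∃ μ : ℝ, μ = Real.log Y / (1 + e) := ⟨_, rfl⟩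
  have hlogY : (1 + e) * μ = Real.log Y := by
    rw [hμd]
    field_simp
  have hμm : max 2 (max μ₀ μ₁) ≤ μ := by
    rw [hμd, le_div_iff₀ (by linarith), mul_comm]
    exact (Real.le_log_iff_exp_le hY0).2 hY
  have hμ2 : 2 ≤ μ := (le_max_left _ _).trans hμm
  have hμ0' : μ₀ ≤ μ := ((le_max_left _ _).trans (le_max_right _ _)).trans hμm
  have hμ1' : μ₁ ≤ μ := ((le_max_right _ _).trans (le_max_right _ _)).trans hμm
  have hμpos : 0 < μ := by linarith
  have hneg : ∀ v, (1 - e) * μ ≤ v → v ≤ (1 + e) * μ →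
      -KK (Real.exp v) ≤ Real.exp ((zetaSup - 1 - ε) * v) := by
    intro v h1 h2
    have h3 : Y ^ (1 - ε₁) ≤ Real.exp v := by
      rw [Real.rpow_def_of_pos hY0, ← hlogY]
      apply Real.exp_le_exp.2
      refine le_trans ?_ h1
      have : ε₁ = 4 * e := by linarith
      rw [this]
      nlinarith [mul_pos he0 hμpos, mul_pos (mul_pos he0 he0) hμpos]
    have h4 : Real.exp v ≤ Y := by
      rw [← Real.le_log_iff_exp_le hY0, ← hlogY]
      exact h2
    have h5 := hcon (Real.exp v) h3 h4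
    rw [Real.rpow_def_of_pos (Real.exp_pos v), Real.log_exp, mul_comm v] at h5
    exact h5.le
  have h1 := core hP (τ := τ) he0 he1 hδ hδe.le hμ2 hε hCK hCS hK hS (hM1 μ (by linarith)) hneg
  have h2 := (hL1 μ hμ0').trans h1
  have h3 := final_ineq hμ2 hc'1 hc'2 hc'3 hCS.le hCK.le C₁ _ hT.le
  rw [← hM0] at h3
  have h4 := h2.trans h3
  have h5 := hμ₁ μ hμ1'
  have e5 : Real.exp (-c' * μ) = Real.exp (-(c' / 2) * μ) * Real.exp (-(c' / 2) * μ) := by
    rw [← Real.exp_add]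
    congr 1
    ring
  rw [e5] at h4
  have hE2 := Real.exp_pos (-(c' / 2) * μ)
  have h6 : M * (μ ^ 2 * (Real.exp (-(c' / 2) * μ) * Real.exp (-(c' / 2) * μ))) <
      Real.exp (-(c' / 2) * μ) := by
    have : M * (μ ^ 2 * (Real.exp (-(c' / 2) * μ) * Real.exp (-(c' / 2) * μ))) =
        (M * (μ ^ 2 * Real.exp (-(c' / 2) * μ))) * Real.exp (-(c' / 2) * μ) := by ring
    rw [this]
    have h7 := mul_lt_mul_of_pos_right h5 hE2
    rwa [one_mul] at h7
  linarith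

end

end Pool.Agent.H89R2.NicOsc
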